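import Pool.Agent.Helper1.LL.Defs

/-!
# Interaction lower bound and truncation limit (Levy-Lieb task J)
-/

open MeasureTheory Filter Topology
open scoped ENNReal

noncomputable section

namespace Pool.Agent.Helper65.LL

open Pool.Agent.Helper1.LL

variable {d : ℕ}

/-! ## The truncated kernel -/

theorem chiM_mono (χ : ℝ → Sp d → ℝ) {M M' : ℝ} (h : M ≤ M') (r : ℝ) (x : Sp d) :
    chiM χ M r x ≤ chiM χ M' r x := by
  unfold chiM
  by_cases h1 : r ∈ Set.Ioo 0 M ∧ ‖x‖ ≤ M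
  · have h2 : r ∈ Set.Ioo 0 M' ∧ ‖x‖ ≤ M' := ⟨⟨h1.1.1, h1.1.2.trans_le h⟩, h1.2.trans h⟩
    rw [if_pos h1, if_pos h2]
    exact min_le_min le_rfl (ENNReal.ofReal_le_ofReal h)
  · rw [if_neg h1]
    exact zero_le

theorem chiM_even (χ : ℝ → Sp d → ℝ) (hχe : ∀ r x, χ r (-x) = χ r x) (M r : ℝ) (x : Sp d) :
    chiM χ M r (-x) = chiM χ M r x := by
  unfold chiM
  rw [norm_neg, hχe]

theorem chiM_measurable (χ : ℝ → Sp d → ℝ) (hχ : Measurable (Function.uncurry χ)) (M : ℝ) :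
    Measurable (fun p : ℝ × Sp d => chiM χ M p.1 p.2) := by
  unfold chiM
  apply Measurable.ite
  · apply MeasurableSet.inter
    · exact measurable_fst measurableSet_Ioo
    · exact measurableSet_le (measurable_snd.norm) measurable_const
  · exact (hχ.ennreal_ofReal).min measurable_const
  · exact measurable_const

/-- The untruncated kernel. -/
def chiI (χ : ℝ → Sp d → ℝ) (r : ℝ) (x : Sp d) : ℝ≥0∞ :=
  open Classical in
  if 0 < r then ENNReal.ofReal (χ r x) else 0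

theorem chiI_even (χ : ℝ → Sp d → ℝ) (hχe : ∀ r x, χ r (-x) = χ r x) (r : ℝ) (x : Sp d) :
    chiI χ r (-x) = chiI χ r x := by
  unfold chiI
  rw [hχe]

theorem chiI_measurable (χ : ℝ → Sp d → ℝ) (hχ : Measurable (Function.uncurry χ)) :
    Measurable (fun p : ℝ × Sp d => chiI χ p.1 p.2) := by
  unfold chiI
  apply Measurable.ite
  · exact measurable_fst measurableSet_Ioi
  · exact hχ.ennreal_ofReal
  · exact measurable_const

theorem chiM_le_chiI (χ : ℝ → Sp d → ℝ) (M r : ℝ) (x : Sp d) :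
    chiM χ M r x ≤ chiI χ r x := by
  unfold chiM chiI
  by_cases h1 : r ∈ Set.Ioo 0 M ∧ ‖x‖ ≤ M
  · rw [if_pos h1, if_pos h1.1.1]
    exact min_le_left _ _
  · rw [if_neg h1]
    exact zero_le

theorem chiM_tendsto (χ : ℝ → Sp d → ℝ) (r : ℝ) (x : Sp d) :
    Tendsto (fun M : ℕ => chiM χ (M : ℝ) r x) atTop (𝓝 (chiI χ r x)) := by
  by_cases hr : 0 < r
  · apply tendsto_const_nhds.congr'
    have h1 : ∀ᶠ M : ℕ in atTop, r < (M : ℝ) := tendsto_natCast_atTop_atTop.eventually_gt_atTop r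
    have h2 : ∀ᶠ M : ℕ in atTop, ‖x‖ ≤ (M : ℝ) :=
      tendsto_natCast_atTop_atTop.eventually_ge_atTop _
    have h3 : ∀ᶠ M : ℕ in atTop, χ r x ≤ (M : ℝ) :=
      tendsto_natCast_atTop_atTop.eventually_ge_atTop _
    filter_upwards [h1, h2, h3] with M a b c
    unfold chiM chiI
    rw [if_pos hr, if_pos ⟨⟨hr, a⟩, b⟩, min_eq_left (ENNReal.ofReal_le_ofReal c)]
  · have : ∀ M : ℕ, chiM χ (M : ℝ) r x = 0 := by
      intro M
      unfold chiM
      rw [if_neg]
      rintro ⟨h, -⟩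
      exact hr h.1
    simp only [this]
    unfold chiI
    rw [if_neg hr]
    exact tendsto_const_nhds

theorem chiM_sq_lt_top (χ : ℝ → Sp d → ℝ) (M : ℝ) :
    ∫⁻ r, ∫⁻ u : Sp d, (chiM χ M r u) ^ 2 < ⊤ := by
  have hb : ∀ r : ℝ, ∀ u : Sp d, (chiM χ M r u) ^ 2 ≤
      (Set.Ioo 0 M).indicator (fun _ => (1 : ℝ≥0∞)) r *
        (Metric.closedBall (0 : Sp d) M).indicator (fun _ => (ENNReal.ofReal M) ^ 2) u := by
    intro r u
    unfold chiM
    by_cases h1 : r ∈ Set.Ioo 0 M ∧ ‖u‖ ≤ M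
    · rw [if_pos h1, Set.indicator_of_mem h1.1, Set.indicator_of_mem, one_mul]
      · gcongr
        exact min_le_right _ _
      · simpa using h1.2
    · rw [if_neg h1]
      simp
  calc ∫⁻ r, ∫⁻ u : Sp d, (chiM χ M r u) ^ 2
      ≤ ∫⁻ r, ∫⁻ u : Sp d, (Set.Ioo 0 M).indicator (fun _ => (1 : ℝ≥0∞)) r *
        (Metric.closedBall (0 : Sp d) M).indicator (fun _ => (ENNReal.ofReal M) ^ 2) u := by
        apply lintegral_mono
        intro r
        apply lintegral_mono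
        intro u
        exact hb r u
    _ = ∫⁻ r, (Set.Ioo 0 M).indicator (fun _ => (1 : ℝ≥0∞)) r *
        ∫⁻ u : Sp d, (Metric.closedBall (0 : Sp d) M).indicator (fun _ => (ENNReal.ofReal M) ^ 2) u := by
        congr 1
        ext r
        rw [lintegral_const_mul]
        exact measurable_const.indicator measurableSet_closedBall
    _ < ⊤ := by
        rw [lintegral_mul_const _ (measurable_const.indicator measurableSet_Ioo)]
        apply ENNReal.mul_lt_top
        · rw [lintegral_indicator measurableSet_Ioo]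
          simp
        · rw [lintegral_indicator measurableSet_closedBall]
          simp only [lintegral_const, Measure.restrict_apply MeasurableSet.univ, Set.univ_inter]
          exact ENNReal.mul_lt_top (by simp) measure_closedBall_lt_top

/-- Positive-type identity. -/
theorem pos_type (k : ℝ → Sp d → ℝ≥0∞) (hk : Measurable (fun p : ℝ × Sp d => k p.1 p.2))
    (hke : ∀ r x, k r (-x) = k r x) (F : Sp d → ℝ≥0∞) (hF : Measurable F) :
    ∫⁻ r, ∫⁻ u, (∫⁻ x, k r (u - x) * F x) ^ 2 =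
      ∫⁻ x, ∫⁻ y, F x * F y * ∫⁻ r, ∫⁻ v, k r v * k r (x - y - v) := by
  have e1 : ∀ x y : Sp d, ∀ r, ∫⁻ v, k r v * k r (x - y - v) =
      ∫⁻ u, k r (u - y) * k r (u - x) := by
    intro x y r
    rw [← lintegral_sub_right_eq_self (μ := volume) (fun v => k r v * k r (x - y - v)) y]
    congr 1
    ext u
    have : x - y - (u - y) = -(u - x) := by abel
    rw [this, hke]
  simp only [e1]
  -- rewrite the right-hand side
  have hm2 : ∀ (x : Sp d), Measurable (fun p : ℝ × Sp d => k p.1 (p.2 - x)) := fun x =>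
    hk.comp (measurable_fst.prodMk (measurable_snd.sub measurable_const))
  have e2 : ∀ x y : Sp d, F x * F y * ∫⁻ r, ∫⁻ u, k r (u - y) * k r (u - x) =
      ∫⁻ r, ∫⁻ u, (k r (u - x) * F x) * (k r (u - y) * F y) := by
    intro x y
    rw [← lintegral_const_mul]
    · congr 1
      ext r
      rw [← lintegral_const_mul]
      · congr 1
        ext u
        ring
      · exact ((hm2 y).comp measurable_prodMk_left).mul ((hm2 x).comp measurable_prodMk_left)
    · exact Measurable.lintegral_prod_right' ((hm2 y).mul (hm2 x))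
  simp only [e2]
  have e3 : ∀ r : ℝ, ∀ u : Sp d, (∫⁻ x, k r (u - x) * F x) ^ 2 =
      ∫⁻ x, ∫⁻ y, (k r (u - x) * F x) * (k r (u - y) * F y) := by
    intro r u
    have hmx : Measurable (fun x => k r (u - x) * F x) :=
      (hk.comp (measurable_const.prodMk (measurable_const.sub measurable_id))).mul hF
    rw [pow_two, ← lintegral_mul_const _ hmx]
    congr 1
    ext x
    rw [lintegral_const_mul _ hmx]
  simp only [e3]
  -- the jointly measurable integrand
  have hJ : Measurable (fun q : (Sp d × Sp d) × (ℝ × Sp d) =>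
      (k q.2.1 (q.2.2 - q.1.1) * F q.1.1) * (k q.2.1 (q.2.2 - q.1.2) * F q.1.2)) := by
    have b1 : Measurable (fun q : (Sp d × Sp d) × (ℝ × Sp d) => (q.2.1, q.2.2 - q.1.1)) := by
      fun_prop
    have b2 : Measurable (fun q : (Sp d × Sp d) × (ℝ × Sp d) => (q.2.1, q.2.2 - q.1.2)) := by
      fun_prop
    have a1 : Measurable (fun q : (Sp d × Sp d) × (ℝ × Sp d) => k q.2.1 (q.2.2 - q.1.1)) :=
      hk.comp b1
    have a2 : Measurable (fun q : (Sp d × Sp d) × (ℝ × Sp d) => k q.2.1 (q.2.2 - q.1.2)) :=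
      hk.comp b2
    exact (a1.mul (hF.comp (measurable_fst.comp measurable_fst))).mul
      (a2.mul (hF.comp (measurable_snd.comp measurable_fst)))
  have r1 : ∫⁻ x, ∫⁻ y, ∫⁻ r, ∫⁻ u, (k r (u - x) * F x) * (k r (u - y) * F y) =
      ∫⁻ p : Sp d × Sp d, ∫⁻ q : ℝ × Sp d,
        (k q.1 (q.2 - p.1) * F p.1) * (k q.1 (q.2 - p.2) * F p.2) := by
    rw [Measure.volume_eq_prod, lintegral_prod]
    · congr 1
      ext x
      congr 1
      ext y
      rw [Measure.volume_eq_prod, lintegral_prod]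
      exact (hJ.comp measurable_prodMk_left).aemeasurable
    · exact (Measurable.lintegral_prod_right' hJ).aemeasurable
  have r2 : ∫⁻ r, ∫⁻ u, ∫⁻ x, ∫⁻ y, (k r (u - x) * F x) * (k r (u - y) * F y) =
      ∫⁻ q : ℝ × Sp d, ∫⁻ p : Sp d × Sp d,
        (k q.1 (q.2 - p.1) * F p.1) * (k q.1 (q.2 - p.2) * F p.2) := by
    rw [Measure.volume_eq_prod, lintegral_prod]
    · congr 1
      ext x
      congr 1
      ext y
      rw [Measure.volume_eq_prod, lintegral_prod]
      exact (hJ.comp (measurable_id.prodMk measurable_const)).aemeasurable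
    · exact (Measurable.lintegral_prod_left' hJ).aemeasurable
  rw [r1, r2]
  exact (lintegral_lintegral_swap (f := fun (p : Sp d × Sp d) (q : ℝ × Sp d) =>
    (k q.1 (q.2 - p.1) * F p.1) * (k q.1 (q.2 - p.2) * F p.2)) hJ.aemeasurable).symm

/-- The weight `W` in terms of the untruncated kernel. -/
theorem chiI_conv (χ : ℝ → Sp d → ℝ) (z : Sp d) :
    ∫⁻ r in Set.Ioi (0 : ℝ), ∫⁻ y, ENNReal.ofReal (χ r y) * ENNReal.ofReal (χ r (z - y)) =
      ∫⁻ r, ∫⁻ v, chiI χ r v * chiI χ r (z - v) := by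
  rw [← lintegral_indicator measurableSet_Ioi]
  congr 1
  ext r
  by_cases hr : 0 < r
  · rw [Set.indicator_of_mem (show r ∈ Set.Ioi (0 : ℝ) from hr)]
    congr 1
    ext v
    unfold chiI
    rw [if_pos hr, if_pos hr]
  · rw [Set.indicator_of_notMem (show r ∉ Set.Ioi (0 : ℝ) from hr)]
    unfold chiI
    simp [if_neg hr]

/-- J2. monotone limit of the truncated interaction. -/
theorem interaction_limit {d : ℕ} (f : Sp d → ℝ) (hf : Integrable f) (hf0 : ∀ x, 0 ≤ f x)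
    (χ : ℝ → Sp d → ℝ) (hχ : Measurable (Function.uncurry χ))
    (hχ0 : ∀ r x, 0 ≤ χ r x) (hχe : ∀ r x, χ r (-x) = χ r x)
    (w : Sp d → ℝ) (hwm : AEMeasurable w volume)
    (hw : ∀ᵐ x, ENNReal.ofReal (w x) =
      ∫⁻ r in Set.Ioi (0 : ℝ), ∫⁻ y, ENNReal.ofReal (χ r y) * ENNReal.ofReal (χ r (x - y))) :
    (∀ M : ℝ, ∫⁻ r, ∫⁻ u, (chiM χ M r u) ^ 2 < ⊤) ∧
    Tendsto (fun M : ℕ => ∫⁻ r, ∫⁻ u, (∫⁻ x, chiM χ (M : ℝ) r (u - x) * ENNReal.ofReal (f x)) ^ 2)
      atTop (𝓝 (∫⁻ x, ∫⁻ y, ENNReal.ofReal (f x) * ENNReal.ofReal (f y)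
        * ENNReal.ofReal (w (x - y)))) := by
  refine ⟨fun M => chiM_sq_lt_top χ M, ?_⟩
  have hfm : AEMeasurable (fun x => ENNReal.ofReal (f x)) volume :=
    hf.1.aemeasurable.ennreal_ofReal
  obtain ⟨F, hFm, hF⟩ := hfm
  -- replace `ofReal f` by `F`
  have e0 : ∀ M : ℕ, ∀ r u, ∫⁻ x, chiM χ (M : ℝ) r (u - x) * ENNReal.ofReal (f x) =
      ∫⁻ x, chiM χ (M : ℝ) r (u - x) * F x := by
    intro M r u
    apply lintegral_congr_ae
    filter_upwards [hF] with x hx
    rw [hx]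
  simp only [e0]
  have e1 : ∫⁻ x, ∫⁻ y, ENNReal.ofReal (f x) * ENNReal.ofReal (f y) * ENNReal.ofReal (w (x - y)) =
      ∫⁻ r, ∫⁻ u, (∫⁻ x, chiI χ r (u - x) * F x) ^ 2 := by
    rw [pos_type (chiI χ) (chiI_measurable χ hχ) (chiI_even χ hχe) F hFm]
    apply lintegral_congr_ae
    filter_upwards [hF] with x hx
    apply lintegral_congr_ae
    have hq := (quasiMeasurePreserving_sub_left_of_right_invariant (volume : Measure (Sp d)) x).ae hw
    filter_upwards [hF, hq] with y hy hwy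
    rw [hx, hy, hwy, chiI_conv]
  rw [e1]
  have hmeas : ∀ (k : ℝ → Sp d → ℝ≥0∞), Measurable (fun p : ℝ × Sp d => k p.1 p.2) →
      Measurable (fun q : ℝ × Sp d => ∫⁻ x, k q.1 (q.2 - x) * F x) := by
    intro k hk
    have b1 : Measurable (fun q : (ℝ × Sp d) × Sp d => (q.1.1, q.1.2 - q.2)) := by
      fun_prop
    have : Measurable (fun q : (ℝ × Sp d) × Sp d => k q.1.1 (q.1.2 - q.2) * F q.2) :=
      (hk.comp b1).mul (hFm.comp measurable_snd)
    exact this.lintegral_prod_right'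
  have mM : ∀ M : ℕ, Measurable (fun q : ℝ × Sp d =>
      (∫⁻ x, chiM χ (M : ℝ) q.1 (q.2 - x) * F x) ^ 2) :=
    fun M => (hmeas _ (chiM_measurable χ hχ (M : ℝ))).pow_const 2
  have mono1 : ∀ r u, Monotone (fun M : ℕ => (∫⁻ x, chiM χ (M : ℝ) r (u - x) * F x) ^ 2) := by
    intro r u M M' h
    have h' : (M : ℝ) ≤ M' := by exact_mod_cast h
    have : ∫⁻ x, chiM χ (M : ℝ) r (u - x) * F x ≤ ∫⁻ x, chiM χ (M' : ℝ) r (u - x) * F x := by
      apply lintegral_mono
      intro x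
      exact mul_le_mul_left (chiM_mono χ h' r _) _
    exact pow_le_pow_left' this 2
  apply lintegral_tendsto_of_tendsto_of_monotone
  · intro M
    exact (mM M).lintegral_prod_right'.aemeasurable
  · refine Eventually.of_forall fun r M M' h => ?_
    apply lintegral_mono
    intro u
    exact mono1 r u h
  refine Eventually.of_forall fun r => ?_
  apply lintegral_tendsto_of_tendsto_of_monotone
  · intro M
    exact ((mM M).comp measurable_prodMk_left).aemeasurable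
  · exact Eventually.of_forall fun u => mono1 r u
  refine Eventually.of_forall fun u => ?_
  have hc := ((ENNReal.continuous_pow 2).tendsto (∫⁻ x, chiI χ r (u - x) * F x)).comp
    (lintegral_tendsto_of_tendsto_of_monotone (μ := (volume : Measure (Sp d)))
      (f := fun (M : ℕ) x => chiM χ (M : ℝ) r (u - x) * F x)
      (F := fun x => chiI χ r (u - x) * F x) ?_ ?_ ?_)
  · exact hc
  · intro M
    have b1 : Measurable (fun x : Sp d => (r, u - x)) := by fun_prop
    exact (((chiM_measurable χ hχ (M : ℝ)).comp b1).mul hFm).aemeasurable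
  · refine Eventually.of_forall fun x M M' h => ?_
    have h' : (M : ℝ) ≤ M' := by exact_mod_cast h
    exact mul_le_mul_left (chiM_mono χ h' r _) _
  · refine Eventually.of_forall fun x => ?_
    by_cases hx : F x = ⊤
    · -- the kernel is eventually equal to its limit
      have hev : ∀ᶠ M : ℕ in atTop, chiM χ (M : ℝ) r (u - x) = chiI χ r (u - x) := by
        by_cases hr : 0 < r
        · have h1 : ∀ᶠ M : ℕ in atTop, r < (M : ℝ) :=
            tendsto_natCast_atTop_atTop.eventually_gt_atTop r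
          have h2 : ∀ᶠ M : ℕ in atTop, ‖u - x‖ ≤ (M : ℝ) :=
            tendsto_natCast_atTop_atTop.eventually_ge_atTop _
          have h3 : ∀ᶠ M : ℕ in atTop, χ r (u - x) ≤ (M : ℝ) :=
            tendsto_natCast_atTop_atTop.eventually_ge_atTop _
          filter_upwards [h1, h2, h3] with M a b c
          unfold chiM chiI
          rw [if_pos hr, if_pos ⟨⟨hr, a⟩, b⟩, min_eq_left (ENNReal.ofReal_le_ofReal c)]
        · refine Eventually.of_forall fun M => ?_
          unfold chiM chiI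
          rw [if_neg hr, if_neg]
          rintro ⟨h, -⟩
          exact hr h.1
      apply tendsto_const_nhds.congr'
      filter_upwards [hev] with M hM
      rw [hM]
    · exact ENNReal.Tendsto.mul_const (chiM_tendsto χ r (u - x)) (Or.inr hx)

/-! ## Lower bound -/

theorem diff_qmp {n : ℕ} {i j : Fin (n + 1)} (hij : j ≠ i) :
    Measure.QuasiMeasurePreserving (fun x : Fin (n + 1) → Sp d => x i - x j) volume volume := by
  obtain ⟨k, rfl⟩ := Fin.exists_succAbove_eq hij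
  have h1 : Measure.QuasiMeasurePreserving
      (MeasurableEquiv.piFinSuccAbove (fun _ : Fin (n + 1) => Sp d) i) volume volume :=
    (volume_preserving_piFinSuccAbove (fun _ : Fin (n + 1) => Sp d) i).quasiMeasurePreserving
  have h2 : Measure.QuasiMeasurePreserving
      (Prod.map id (Function.eval k) : Sp d × (Fin n → Sp d) → Sp d × Sp d)
      (volume.prod (Measure.pi fun _ => volume)) (volume.prod volume) :=
    MeasureTheory.QuasiMeasurePreserving.prodMap (Measure.QuasiMeasurePreserving.id _)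
      (Measure.quasiMeasurePreserving_eval (fun _ : Fin n => (volume : Measure (Sp d))) k)
  have h3 := quasiMeasurePreserving_sub_of_right_invariant (volume : Measure (Sp d))
    (volume : Measure (Sp d))
  exact h3.comp (h2.comp h1)

theorem sq_sum_eq {n : ℕ} (c : Fin (n + 1) → ℝ≥0∞) :
    (∑ i, c i) ^ 2 = 2 * (∑ i, ∑ j ∈ Finset.Ioi i, c i * c j) + ∑ i, c i ^ 2 := by
  have h := Finset.sum_sum_Ioi_add_eq_sum_sum_off_diag (fun i j : Fin (n + 1) => c i * c j)
  have h1 : (∑ i, c i) ^ 2 = ∑ i, ∑ j, c j * c i := by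
    rw [pow_two, Finset.sum_mul_sum]
    simp_rw [mul_comm (c _) (c _)]
  rw [h1]
  have h2 : ∀ i : Fin (n + 1), ∑ j, c j * c i = (∑ j ∈ {i}ᶜ, c j * c i) + c i ^ 2 := by
    intro i
    rw [← Finset.sum_compl_add_sum {i} (fun j => c j * c i)]
    simp [pow_two]
  simp_rw [h2]
  rw [Finset.sum_add_distrib, ← h]
  congr 1
  rw [Finset.mul_sum]
  apply Finset.sum_congr rfl
  intro i _
  rw [Finset.mul_sum]
  apply Finset.sum_congr rfl
  intro j _
  ring

theorem perm_mp {n : ℕ} (σ : Equiv.Perm (Fin (n + 1))) :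
    ∃ T : (Fin (n + 1) → Sp d) ≃ᵐ (Fin (n + 1) → Sp d),
      MeasurePreserving T volume volume ∧ ∀ x, T x = x ∘ σ := by
  refine ⟨MeasurableEquiv.piCongrLeft (fun _ => Sp d) σ.symm,
    volume_measurePreserving_piCongrLeft (fun _ => Sp d) σ.symm, ?_⟩
  intro x
  ext1 i
  have := Equiv.piCongrLeft_apply_apply (fun _ : Fin (n + 1) => Sp d) σ.symm x (σ i)
  simp only [Equiv.symm_apply_apply] at this
  exact this

theorem one_body {n : ℕ} (Ψ : (Fin (n + 1) → Sp d) → ℂ)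
    (hΨ : MemLp Ψ 2 volume)
    (anti : ∀ σ : Equiv.Perm (Fin (n + 1)),
      ∀ᵐ x, Ψ (x ∘ σ) = ((Equiv.Perm.sign σ : ℤ) : ℂ) * Ψ x)
    (f : Sp d → ℝ)
    (hdens : ∀ᵐ x, (n + 1 : ℝ) * ∫ y : Fin n → Sp d, ‖Ψ (Fin.cons x y)‖ ^ 2 = (n + 1) * f x)
    (H : Sp d → ℝ≥0∞) (hH : Measurable H) (i : Fin (n + 1)) :
    ∫⁻ x, ENNReal.ofReal (‖Ψ x‖ ^ 2) * H (x i) = ∫⁻ x, H x * ENNReal.ofReal (f x) := by
  have step1 : ∫⁻ x, ENNReal.ofReal (‖Ψ x‖ ^ 2) * H (x i) =
      ∫⁻ x, ENNReal.ofReal (‖Ψ x‖ ^ 2) * H (x 0) := by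
    obtain ⟨T, hT, hTx⟩ := perm_mp (d := d) (Equiv.swap (0 : Fin (n + 1)) i)
    rw [← hT.lintegral_comp_emb T.measurableEmbedding]
    apply lintegral_congr_ae
    filter_upwards [anti (Equiv.swap (0 : Fin (n + 1)) i)] with x hx
    rw [hTx, hx, norm_mul]
    have : ‖(((Equiv.Perm.sign (Equiv.swap (0 : Fin (n + 1)) i) : ℤ) : ℂ))‖ = 1 := by
      rcases Int.units_eq_one_or (Equiv.Perm.sign (Equiv.swap (0 : Fin (n + 1)) i)) with h | h <;>
        rw [h] <;> simp
    rw [this, one_mul]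
    simp
  rw [step1]
  set e := MeasurableEquiv.piFinSuccAbove (fun _ : Fin (n + 1) => Sp d) 0 with he
  have hmp : MeasurePreserving e.symm (volume.prod (Measure.pi fun _ => volume)) volume :=
    (volume_preserving_piFinSuccAbove (fun _ : Fin (n + 1) => Sp d) 0).symm e
  have hes : ∀ p : Sp d × (Fin n → Sp d), e.symm p = Fin.cons p.1 p.2 := by
    intro p
    simp [he, MeasurableEquiv.piFinSuccAbove]
    rfl
  have hsq : Integrable (fun x => ‖Ψ x‖ ^ 2) volume := hΨ.integrable_norm_pow two_ne_zero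
  have hsq' : Integrable (fun p : Sp d × (Fin n → Sp d) => ‖Ψ (Fin.cons p.1 p.2)‖ ^ 2)
      (volume.prod (Measure.pi fun _ => volume)) := by
    have := (hmp.integrable_comp_emb e.symm.measurableEmbedding).2 hsq
    refine this.congr (Eventually.of_forall fun p => ?_)
    simp only [Function.comp_apply, hes]
  rw [← hmp.lintegral_comp_emb e.symm.measurableEmbedding]
  simp only [hes]
  have hm1 : AEMeasurable (fun p : Sp d × (Fin n → Sp d) =>
      ENNReal.ofReal (‖Ψ (Fin.cons p.1 p.2)‖ ^ 2))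
      (volume.prod (Measure.pi fun _ => volume)) := hsq'.1.aemeasurable.ennreal_ofReal
  rw [lintegral_prod]
  · apply lintegral_congr_ae
    filter_upwards [hsq'.prod_right_ae, hdens] with a ha hda
    have h1 : ∀ y : Fin n → Sp d, (Fin.cons a y : Fin (n + 1) → Sp d) 0 = a := fun y => rfl
    simp only [h1]
    rw [lintegral_mul_const'' _ ha.1.aemeasurable.ennreal_ofReal]
    have h2 : ∫ y : Fin n → Sp d, ‖Ψ (Fin.cons a y)‖ ^ 2 = f a := by
      have : (n + 1 : ℝ) ≠ 0 := by positivity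
      exact mul_left_cancel₀ this hda
    rw [← ofReal_integral_eq_lintegral_ofReal ha (Eventually.of_forall fun y => by positivity)]
    rw [mul_comm]
    congr 2
  · exact hm1.mul (hH.comp (by
      have : Measurable (fun p : Sp d × (Fin n → Sp d) =>
        (Fin.cons p.1 p.2 : Fin (n + 1) → Sp d) 0) := measurable_fst
      exact this)).aemeasurable

theorem cauchy_schwarz {n : ℕ} (Ψ : (Fin (n + 1) → Sp d) → ℂ) (hΨ : MemLp Ψ 2 volume)
    (hΨ1 : ∫ x, ‖Ψ x‖ ^ 2 = 1) (A : (Fin (n + 1) → Sp d) → ℝ≥0∞) (hA : Measurable A) :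
    (∫⁻ x, ENNReal.ofReal (‖Ψ x‖ ^ 2) * A x) ^ 2 ≤ ∫⁻ x, ENNReal.ofReal (‖Ψ x‖ ^ 2) * A x ^ 2 := by
  have hS : AEMeasurable (fun x => ENNReal.ofReal ‖Ψ x‖) volume :=
    hΨ.1.norm.aemeasurable.ennreal_ofReal
  have hsq : Integrable (fun x => ‖Ψ x‖ ^ 2) volume := hΨ.integrable_norm_pow two_ne_zero
  have hone : ∫⁻ x, ENNReal.ofReal ‖Ψ x‖ ^ (2 : ℝ) = 1 := by
    have : ∀ x, ENNReal.ofReal ‖Ψ x‖ ^ (2 : ℝ) = ENNReal.ofReal (‖Ψ x‖ ^ 2) := by
      intro x
      rw [ENNReal.rpow_two, ← ENNReal.ofReal_pow (norm_nonneg _)]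
    simp only [this]
    rw [← ofReal_integral_eq_lintegral_ofReal hsq (Eventually.of_forall fun y => by positivity),
      hΨ1, ENNReal.ofReal_one]
  have h := ENNReal.lintegral_mul_le_Lp_mul_Lq volume
    (show (2 : ℝ).HolderConjugate 2 from Real.HolderConjugate.two_two)
    (hS.mul hA.aemeasurable) hS
  rw [hone, ENNReal.one_rpow, mul_one] at h
  have h1 : ∀ x, ((fun x => ENNReal.ofReal ‖Ψ x‖) * A * fun x => ENNReal.ofReal ‖Ψ x‖) x =
      ENNReal.ofReal (‖Ψ x‖ ^ 2) * A x := by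
    intro x
    simp only [Pi.mul_apply]
    rw [ENNReal.ofReal_pow (norm_nonneg _)]
    ring
  have h2 : ∀ x, ((fun x => ENNReal.ofReal ‖Ψ x‖) * A) x ^ (2 : ℝ) =
      ENNReal.ofReal (‖Ψ x‖ ^ 2) * A x ^ 2 := by
    intro x
    simp only [Pi.mul_apply]
    rw [ENNReal.rpow_two, ENNReal.ofReal_pow (norm_nonneg _)]
    ring
  simp only [h1, h2] at h
  calc (∫⁻ x, ENNReal.ofReal (‖Ψ x‖ ^ 2) * A x) ^ 2
      ≤ ((∫⁻ x, ENNReal.ofReal (‖Ψ x‖ ^ 2) * A x ^ 2) ^ (1 / (2 : ℝ))) ^ 2 :=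
        pow_le_pow_left' h 2
    _ = ∫⁻ x, ENNReal.ofReal (‖Ψ x‖ ^ 2) * A x ^ 2 := by
        rw [← ENNReal.rpow_two, ← ENNReal.rpow_mul]
        norm_num

theorem interaction_lower {d : ℕ} {n : ℕ} (Ψ : (Fin (n + 1) → Sp d) → ℂ)
    (hΨ : MemLp Ψ 2 volume) (hΨ1 : ∫ x, ‖Ψ x‖ ^ 2 = 1)
    (anti : ∀ σ : Equiv.Perm (Fin (n + 1)),
      ∀ᵐ x, Ψ (x ∘ σ) = ((Equiv.Perm.sign σ : ℤ) : ℂ) * Ψ x)
    (f : Sp d → ℝ) (hf : Integrable f) (hf0 : ∀ x, 0 ≤ f x) (hf1 : ∫ x, f x = 1)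
    (hdens : ∀ᵐ x, (n + 1 : ℝ) * ∫ y : Fin n → Sp d, ‖Ψ (Fin.cons x y)‖ ^ 2 = (n + 1) * f x)
    (χ : ℝ → Sp d → ℝ) (hχ : Measurable (Function.uncurry χ))
    (hχ0 : ∀ r x, 0 ≤ χ r x) (hχe : ∀ r x, χ r (-x) = χ r x)
    (w : Sp d → ℝ) (hwm : AEMeasurable w volume)
    (hw : ∀ᵐ x, ENNReal.ofReal (w x) =
      ∫⁻ r in Set.Ioi (0 : ℝ), ∫⁻ y, ENNReal.ofReal (χ r y) * ENNReal.ofReal (χ r (x - y)))
    (M : ℝ) (hM : 0 ≤ M) :
    ENNReal.ofReal ((n + 1 : ℝ) ^ 2 / 2) *
        ∫⁻ r, ∫⁻ u, (∫⁻ x, chiM χ M r (u - x) * ENNReal.ofReal (f x)) ^ 2 ≤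
      (∫⁻ x : Fin (n + 1) → Sp d, (∑ i, ∑ j ∈ Finset.Ioi i, ENNReal.ofReal (w (x i - x j)))
          * ENNReal.ofReal (‖Ψ x‖ ^ 2))
        + ENNReal.ofReal ((n + 1 : ℝ) / 2) * ∫⁻ r, ∫⁻ u, (chiM χ M r u) ^ 2 := by
  set c := chiM χ M with hc
  have hcm : Measurable (fun p : ℝ × Sp d => c p.1 p.2) := chiM_measurable χ hχ M
  have hce : ∀ r x, c r (-x) = c r x := chiM_even χ hχe M
  set P : (Fin (n + 1) → Sp d) → ℝ≥0∞ := fun x => ENNReal.ofReal (‖Ψ x‖ ^ 2) with hP
  have hsq : Integrable (fun x => ‖Ψ x‖ ^ 2) volume := hΨ.integrable_norm_pow two_ne_zero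
  have hPm : AEMeasurable P volume := hsq.1.aemeasurable.ennreal_ofReal
  have hP1 : ∫⁻ x, P x = 1 := by
    rw [hP, ← ofReal_integral_eq_lintegral_ofReal hsq (Eventually.of_forall fun y => by positivity),
      hΨ1, ENNReal.ofReal_one]
  -- measurability of the cluster function
  have hcu : ∀ r (u : Sp d), Measurable (fun x : Sp d => c r (u - x)) := by
    intro r u
    have b1 : Measurable (fun x : Sp d => (r, u - x)) := by fun_prop
    exact hcm.comp b1
  have hcu' : ∀ r (x : Sp d), Measurable (fun u : Sp d => c r (u - x)) := by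
    intro r u
    have b1 : Measurable (fun x : Sp d => (r, x - u)) := by fun_prop
    exact hcm.comp b1
  have hcru : ∀ (x : Sp d), Measurable (fun q : ℝ × Sp d => c q.1 (q.2 - x)) := by
    intro x
    have b1 : Measurable (fun q : ℝ × Sp d => (q.1, q.2 - x)) := by fun_prop
    exact hcm.comp b1
  have hA : ∀ r (u : Sp d), Measurable (fun x : Fin (n + 1) → Sp d => ∑ i, c r (u - x i)) := by
    intro r u
    exact Finset.measurable_sum _ fun i _ => (hcu r u).comp (measurable_pi_apply i)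
  -- step 1: Cauchy-Schwarz for each `r, u`
  have s1 : ∀ r (u : Sp d), ((n + 1 : ℕ) : ℝ≥0∞) ^ 2 *
      (∫⁻ x, c r (u - x) * ENNReal.ofReal (f x)) ^ 2 ≤
        ∫⁻ x, P x * (∑ i, c r (u - x i)) ^ 2 := by
    intro r u
    have h1 : ∫⁻ x, P x * (∑ i, c r (u - x i)) =
        ((n + 1 : ℕ) : ℝ≥0∞) * ∫⁻ x, c r (u - x) * ENNReal.ofReal (f x) := by
      have : ∀ x : Fin (n + 1) → Sp d, P x * (∑ i, c r (u - x i)) = ∑ i, P x * c r (u - x i) :=
        fun x => Finset.mul_sum _ _ _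
      simp only [this]
      have hmm : ∀ i : Fin (n + 1), AEMeasurable (fun x : Fin (n + 1) → Sp d =>
          P x * c r (u - x i)) volume := fun i =>
        hPm.mul ((hcu r u).comp (measurable_pi_apply i)).aemeasurable
      rw [lintegral_finsetSum' _ fun i _ => hmm i]
      have h2 : ∀ i : Fin (n + 1), ∫⁻ x, P x * c r (u - x i) =
          ∫⁻ x, c r (u - x) * ENNReal.ofReal (f x) := fun i =>
        one_body Ψ hΨ anti f hdens (fun x => c r (u - x)) (hcu r u) i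
      simp only [h2, Finset.sum_const, Finset.card_univ, Fintype.card_fin, nsmul_eq_mul]
    rw [← mul_pow, ← h1]
    exact cauchy_schwarz Ψ hΨ hΨ1 _ (hA r u)
  -- step 2: integrate in `r, u` and swap
  have hJ : Measurable (fun q : (Fin (n + 1) → Sp d) × (ℝ × Sp d) =>
      (∑ i, c q.2.1 (q.2.2 - q.1 i)) ^ 2) := by
    apply Measurable.pow_const
    apply Finset.measurable_sum
    intro i _
    have b1 : Measurable (fun q : (Fin (n + 1) → Sp d) × (ℝ × Sp d) =>
      (q.2.1, q.2.2 - q.1 i)) := by fun_prop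
    exact hcm.comp b1
  have s2 : ∫⁻ r, ∫⁻ u, ∫⁻ x, P x * (∑ i, c r (u - x i)) ^ 2 =
      ∫⁻ x, P x * ∫⁻ r, ∫⁻ u, (∑ i, c r (u - x i)) ^ 2 := by
    have hJ' : AEMeasurable (fun q : (Fin (n + 1) → Sp d) × (ℝ × Sp d) =>
        P q.1 * (∑ i, c q.2.1 (q.2.2 - q.1 i)) ^ 2)
        ((volume : Measure (Fin (n + 1) → Sp d)).prod (volume : Measure (ℝ × Sp d))) :=
      (hPm.comp_fst).mul hJ.aemeasurable
    have a1 : ∫⁻ q : ℝ × Sp d, ∫⁻ x, P x * (∑ i, c q.1 (q.2 - x i)) ^ 2 =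
        ∫⁻ x, ∫⁻ q : ℝ × Sp d, P x * (∑ i, c q.1 (q.2 - x i)) ^ 2 :=
      (lintegral_lintegral_swap (f := fun (x : Fin (n + 1) → Sp d) (q : ℝ × Sp d) =>
        P x * (∑ i, c q.1 (q.2 - x i)) ^ 2) hJ').symm
    have a2 : ∫⁻ r, ∫⁻ u, ∫⁻ x, P x * (∑ i, c r (u - x i)) ^ 2 =
        ∫⁻ q : ℝ × Sp d, ∫⁻ x, P x * (∑ i, c q.1 (q.2 - x i)) ^ 2 := by
      rw [Measure.volume_eq_prod, lintegral_prod]
      have := hJ'.prod_swap
      exact this.lintegral_prod_right'
    rw [a2, a1]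
    congr 1
    ext x
    have hq : Measurable (fun q : ℝ × Sp d => (∑ i, c q.1 (q.2 - x i)) ^ 2) :=
      hJ.comp measurable_prodMk_left
    rw [lintegral_const_mul _ hq]
    congr 1
    rw [Measure.volume_eq_prod, lintegral_prod _ hq.aemeasurable]
  -- step 3: pointwise bound
  set B : ℝ≥0∞ := ∫⁻ r, ∫⁻ u, (c r u) ^ 2 with hB
  have s3 : ∀ᵐ x : Fin (n + 1) → Sp d, ∫⁻ r, ∫⁻ u, (∑ i, c r (u - x i)) ^ 2 ≤
      2 * (∑ i, ∑ j ∈ Finset.Ioi i, ENNReal.ofReal (w (x i - x j))) + ((n + 1 : ℕ) : ℝ≥0∞) * B := by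
    have hae : ∀ᵐ x : Fin (n + 1) → Sp d, ∀ i j, j ≠ i →
        ENNReal.ofReal (w (x i - x j)) = ∫⁻ r, ∫⁻ v, chiI χ r v * chiI χ r (x i - x j - v) := by
      rw [ae_all_iff]
      intro i
      rw [ae_all_iff]
      intro j
      by_cases hij : j = i
      · exact Eventually.of_forall fun x h => absurd hij h
      · have := (diff_qmp (d := d) hij).ae hw
        filter_upwards [this] with x hx _
        rw [hx, chiI_conv]
    filter_upwards [hae] with x hx
    have p1 : ∀ i j : Fin (n + 1), Measurable (fun q : ℝ × Sp d =>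
        c q.1 (q.2 - x i) * c q.1 (q.2 - x j)) := fun i j => (hcru _).mul (hcru _)
    have t1 : ∫⁻ r, ∫⁻ u, (∑ i, c r (u - x i)) ^ 2 =
        2 * (∑ i, ∑ j ∈ Finset.Ioi i, ∫⁻ r, ∫⁻ u, c r (u - x i) * c r (u - x j)) +
          ∑ i, ∫⁻ r, ∫⁻ u, c r (u - x i) ^ 2 := by
      have u0 : ∀ g : ℝ → Sp d → ℝ≥0∞, Measurable (fun q : ℝ × Sp d => g q.1 q.2) →
          ∫⁻ r, ∫⁻ u, g r u = ∫⁻ q : ℝ × Sp d, g q.1 q.2 := by
        intro g hg
        rw [Measure.volume_eq_prod, lintegral_prod _ hg.aemeasurable]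
      have m0 : Measurable (fun q : ℝ × Sp d => (∑ i, c q.1 (q.2 - x i)) ^ 2) :=
        (Finset.measurable_sum _ fun i _ => hcru (x i)).pow_const 2
      rw [u0 (fun r u => (∑ i, c r (u - x i)) ^ 2) m0]
      have u1 : ∀ i j : Fin (n + 1), ∫⁻ r, ∫⁻ u, c r (u - x i) * c r (u - x j) =
          ∫⁻ q : ℝ × Sp d, c q.1 (q.2 - x i) * c q.1 (q.2 - x j) := fun i j =>
        u0 (fun r u => c r (u - x i) * c r (u - x j)) (p1 i j)
      have u2 : ∀ i : Fin (n + 1), ∫⁻ r, ∫⁻ u, c r (u - x i) ^ 2 =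
          ∫⁻ q : ℝ × Sp d, c q.1 (q.2 - x i) ^ 2 := fun i =>
        u0 (fun r u => c r (u - x i) ^ 2) ((hcru (x i)).pow_const 2)
      simp only [u1, u2]
      have v1 : ∀ q : ℝ × Sp d, (∑ i, c q.1 (q.2 - x i)) ^ 2 =
          2 * (∑ i, ∑ j ∈ Finset.Ioi i, c q.1 (q.2 - x i) * c q.1 (q.2 - x j)) +
            ∑ i, c q.1 (q.2 - x i) ^ 2 := fun q => sq_sum_eq _
      simp only [v1]
      have m1 : Measurable (fun q : ℝ × Sp d =>
          ∑ i, ∑ j ∈ Finset.Ioi i, c q.1 (q.2 - x i) * c q.1 (q.2 - x j)) :=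
        Finset.measurable_sum _ fun i _ => Finset.measurable_sum _ fun j _ => p1 i j
      rw [lintegral_add_left (m1.const_mul 2), lintegral_const_mul _ m1,
        lintegral_finsetSum _ fun i _ => Finset.measurable_sum _ fun j _ => p1 i j,
        lintegral_finsetSum _ fun i _ => (hcru (x i)).pow_const 2]
      congr 2
      apply Finset.sum_congr rfl
      intro i _
      rw [lintegral_finsetSum _ fun j _ => p1 i j]
    rw [t1]
    apply add_le_add
    · gcongr with i _ j hj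
      rw [Finset.mem_Ioi] at hj
      rw [hx i j (ne_of_gt hj)]
      apply lintegral_mono
      intro r
      dsimp only
      rw [← lintegral_sub_right_eq_self (μ := volume)
        (fun v => chiI χ r v * chiI χ r (x i - x j - v)) (x j)]
      apply lintegral_mono
      intro u
      dsimp only
      have e : x i - x j - (u - x j) = -(u - x i) := by abel
      rw [e, chiI_even χ hχe, mul_comm]
      exact mul_le_mul' (chiM_le_chiI χ M r _) (chiM_le_chiI χ M r _)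
    · have : ∀ i : Fin (n + 1), ∫⁻ r, ∫⁻ u, c r (u - x i) ^ 2 = B := by
        intro i
        rw [hB]
        congr 1
        ext r
        exact lintegral_sub_right_eq_self (μ := volume) (fun u => c r u ^ 2) (x i)
      simp only [this, Finset.sum_const, Finset.card_univ, Fintype.card_fin, nsmul_eq_mul]
      exact le_rfl
  -- step 4: assembly
  have s4 : ((n + 1 : ℕ) : ℝ≥0∞) ^ 2 *
      ∫⁻ r, ∫⁻ u, (∫⁻ x, c r (u - x) * ENNReal.ofReal (f x)) ^ 2 ≤
      2 * (∫⁻ x : Fin (n + 1) → Sp d, (∑ i, ∑ j ∈ Finset.Ioi i, ENNReal.ofReal (w (x i - x j)))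
          * P x) + ((n + 1 : ℕ) : ℝ≥0∞) * B := by
    have hne : ((n + 1 : ℕ) : ℝ≥0∞) ^ 2 ≠ ⊤ := by
      apply ENNReal.pow_ne_top
      exact ENNReal.natCast_ne_top _
    calc ((n + 1 : ℕ) : ℝ≥0∞) ^ 2 *
        ∫⁻ r, ∫⁻ u, (∫⁻ x, c r (u - x) * ENNReal.ofReal (f x)) ^ 2
        = ∫⁻ r, ∫⁻ u, ((n + 1 : ℕ) : ℝ≥0∞) ^ 2 *
            (∫⁻ x, c r (u - x) * ENNReal.ofReal (f x)) ^ 2 := by
          rw [← lintegral_const_mul' _ _ hne]
          congr 1
          ext r
          rw [← lintegral_const_mul' _ _ hne]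
      _ ≤ ∫⁻ r, ∫⁻ u, ∫⁻ x, P x * (∑ i, c r (u - x i)) ^ 2 := by
          apply lintegral_mono
          intro r
          apply lintegral_mono
          intro u
          exact s1 r u
      _ = ∫⁻ x, P x * ∫⁻ r, ∫⁻ u, (∑ i, c r (u - x i)) ^ 2 := s2
      _ ≤ ∫⁻ x, P x * (2 * (∑ i, ∑ j ∈ Finset.Ioi i, ENNReal.ofReal (w (x i - x j))) +
            ((n + 1 : ℕ) : ℝ≥0∞) * B) := by
          apply lintegral_mono_ae
          filter_upwards [s3] with x hx
          gcongr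
      _ = ∫⁻ x, (2 * ((∑ i, ∑ j ∈ Finset.Ioi i, ENNReal.ofReal (w (x i - x j))) * P x) +
            ((n + 1 : ℕ) : ℝ≥0∞) * B * P x) := by
          congr 1
          ext x
          ring
      _ = 2 * (∫⁻ x : Fin (n + 1) → Sp d,
            (∑ i, ∑ j ∈ Finset.Ioi i, ENNReal.ofReal (w (x i - x j))) * P x) +
            ((n + 1 : ℕ) : ℝ≥0∞) * B := by
          rw [lintegral_add_right' _ (hPm.const_mul _), lintegral_const_mul'' _ hPm, hP1, mul_one,
            lintegral_const_mul' _ _ (by norm_num)]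
  have c1 : ENNReal.ofReal ((n + 1 : ℝ) ^ 2 / 2) = 2⁻¹ * ((n + 1 : ℕ) : ℝ≥0∞) ^ 2 := by
    rw [ENNReal.ofReal_div_of_pos (by norm_num), ENNReal.ofReal_pow (by positivity), div_eq_mul_inv,
      mul_comm]
    congr 1
    · norm_num
    · congr 1
      rw [← ENNReal.ofReal_natCast]
      push_cast
      rfl
  have c2 : ENNReal.ofReal ((n + 1 : ℝ) / 2) = 2⁻¹ * ((n + 1 : ℕ) : ℝ≥0∞) := by
    rw [ENNReal.ofReal_div_of_pos (by norm_num), div_eq_mul_inv, mul_comm]
    congr 1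
    · norm_num
    · rw [← ENNReal.ofReal_natCast]
      push_cast
      rfl
  rw [c1, c2, mul_assoc, mul_assoc]
  calc 2⁻¹ * (((n + 1 : ℕ) : ℝ≥0∞) ^ 2 *
        ∫⁻ r, ∫⁻ u, (∫⁻ x, c r (u - x) * ENNReal.ofReal (f x)) ^ 2)
      ≤ 2⁻¹ * (2 * (∫⁻ x : Fin (n + 1) → Sp d,
          (∑ i, ∑ j ∈ Finset.Ioi i, ENNReal.ofReal (w (x i - x j))) * P x) +
            ((n + 1 : ℕ) : ℝ≥0∞) * B) := by gcongr
    _ = _ := by
        rw [mul_add, ← mul_assoc, ENNReal.inv_mul_cancel (by norm_num) (by norm_num), one_mul]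

end Pool.Agent.Helper65.LL
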