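import Mathlib

/-!
# Preliminaries for the diamond construction of non-Tukey-top ultrafilters

Almost inclusion of sets of naturals, pseudo-intersections, splitting sets, transfinite
recursion on a well-ordered type, closure points.
-/

open Set Filter

namespace TT

/-- Almost inclusion: `s ⊆ t` up to a finite set. -/
def AS (s t : Set ℕ) : Prop := (s \ t).Finite

lemma AS.refl (s : Set ℕ) : AS s s := by simp [AS]

lemma AS.of_subset {s t : Set ℕ} (h : s ⊆ t) : AS s t := by
  simp [AS, Set.diff_eq_empty.2 h]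

lemma AS.trans {s t u : Set ℕ} (h : AS s t) (h' : AS t u) : AS s u := by
  refine (Set.Finite.union h h').subset ?_
  intro x hx
  by_cases hxt : x ∈ t
  · exact Or.inr ⟨hxt, hx.2⟩
  · exact Or.inl ⟨hx.1, hxt⟩

lemma AS.inter {s t u : Set ℕ} (h : AS s t) (h' : AS s u) : AS s (t ∩ u) := by
  refine (Set.Finite.union h h').subset ?_
  intro x hx
  by_cases hxt : x ∈ t
  · exact Or.inr ⟨hx.1, fun hxu => hx.2 ⟨hxt, hxu⟩⟩
  · exact Or.inl ⟨hx.1, hxt⟩

lemma AS.infinite {s t : Set ℕ} (h : AS s t) (hs : s.Infinite) : t.Infinite := by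
  intro ht
  apply hs
  refine (ht.union h).subset ?_
  intro x hx
  by_cases hxt : x ∈ t
  · exact Or.inl hxt
  · exact Or.inr ⟨hx, hxt⟩

lemma AS.mono_right {s t u : Set ℕ} (h : AS s t) (h' : t ⊆ u) : AS s u :=
  h.trans (AS.of_subset h')

lemma AS.mono_left {s t u : Set ℕ} (h : AS t u) (h' : s ⊆ t) : AS s u :=
  (AS.of_subset h').trans h

/-- A strictly increasing choice from a sequence of infinite sets. -/
lemma exists_strictMono_mem (B : ℕ → Set ℕ) (hB : ∀ n, (B n).Infinite) :
    ∃ x : ℕ → ℕ, StrictMono x ∧ ∀ n, x n ∈ B n := by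
  have key : ∀ n m : ℕ, ∃ y, y ∈ B n ∧ m < y := fun n m => by
    obtain ⟨y, hy, hy'⟩ := (hB n).exists_gt m
    exact ⟨y, hy, hy'⟩
  choose g hg1 hg2 using key
  let x : ℕ → ℕ := fun n => Nat.rec (g 0 0) (fun k xk => g (k + 1) xk) n
  refine ⟨x, strictMono_nat_of_lt_succ fun n => hg2 _ _, fun n => ?_⟩
  cases n with
  | zero => exact hg1 _ _
  | succ n => exact hg1 _ _

/-- Pseudo-intersections of countable families. -/
lemma exists_pseudo {ι : Type*} [Countable ι] (B : ι → Set ℕ)
    (hB : ∀ F : Finset ι, {l | ∀ i ∈ F, l ∈ B i}.Infinite) :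
    ∃ P : Set ℕ, P.Infinite ∧ ∀ i, AS P (B i) := by
  classical
  rcases isEmpty_or_nonempty ι with h | h
  · exact ⟨univ, infinite_univ, fun i => isEmptyElim i⟩
  · obtain ⟨e, he⟩ := exists_surjective_nat ι
    obtain ⟨x, hx, hx'⟩ := exists_strictMono_mem
      (fun n => {l | ∀ i ∈ (Finset.range (n+1)).image e, l ∈ B i}) (fun n => hB _)
    refine ⟨range x, infinite_range_of_injective hx.injective, fun i => ?_⟩
    obtain ⟨n, rfl⟩ := he i
    refine ((finite_Iio n).image x).subset ?_
    rintro _ ⟨⟨m, rfl⟩, hm⟩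
    refine ⟨m, ?_, rfl⟩
    by_contra hmn
    apply hm
    refine hx' m _ (Finset.mem_image_of_mem e ?_)
    simp only [mem_Iio, not_lt] at hmn
    simpa using by omega

/-- `A` splits `B`. -/
def Split (B A : Set ℕ) : Prop := (B ∩ A).Infinite ∧ (B \ A).Infinite

/-- Splitting sets for countable families of infinite sets. -/
lemma exists_split {ι : Type*} [Countable ι] (B : ι → Set ℕ)
    (hB : ∀ i, (B i).Infinite) : ∃ A : Set ℕ, ∀ i, Split (B i) A := by
  classical
  rcases isEmpty_or_nonempty ι with h | h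
  · exact ⟨univ, fun i => isEmptyElim i⟩
  · obtain ⟨e, he⟩ := exists_surjective_nat ι
    obtain ⟨x, hx, hx'⟩ := exists_strictMono_mem (fun n => B (e n.unpair.1)) (fun n => hB _)
    refine ⟨x '' {m | m.unpair.2 % 2 = 0}, fun i => ?_⟩
    obtain ⟨n, rfl⟩ := he i
    constructor
    · have : (range fun k : ℕ => x (Nat.pair n (2*k))).Infinite := by
        apply infinite_range_of_injective
        intro a b hab
        have := hx.injective hab
        have := Nat.pair_eq_pair.1 this
        omega
      refine this.mono ?_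
      rintro _ ⟨k, rfl⟩
      refine ⟨?_, ⟨_, ?_, rfl⟩⟩
      · have := hx' (Nat.pair n (2*k))
        simpa using this
      · simp
    · have : (range fun k : ℕ => x (Nat.pair n (2*k+1))).Infinite := by
        apply infinite_range_of_injective
        intro a b hab
        have := hx.injective hab
        have := Nat.pair_eq_pair.1 this
        omega
      refine this.mono ?_
      rintro _ ⟨k, rfl⟩
      refine ⟨?_, ?_⟩
      · have := hx' (Nat.pair n (2*k+1))
        simpa using this
      · rintro ⟨m, hm, hmx⟩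
        have := hx.injective hmx
        subst this
        simp only [Nat.unpair_pair, mem_setOf_eq] at hm
        omega

/-- The slowly growing index function. -/
lemma exists_kappa (Pr : ℕ → ℕ → Prop) (h0 : ∀ j, Pr 0 j)
    (h : ∀ k, ∀ᶠ j in atTop, Pr k j) :
    ∃ κ : ℕ → ℕ, Tendsto κ atTop atTop ∧ ∀ j, Pr (κ j) j := by
  classical
  refine ⟨fun j => Nat.findGreatest (fun k => Pr k j) j, ?_, fun j => ?_⟩
  · rw [tendsto_atTop_atTop]
    intro b
    obtain ⟨m, hm⟩ := eventually_atTop.1 (h b)
    refine ⟨max b m, fun j hj => ?_⟩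
    exact Nat.le_findGreatest (le_trans (le_max_left _ _) hj) (hm j (le_trans (le_max_right _ _) hj))
  · exact Nat.findGreatest_spec (P := fun k => Pr k j) (Nat.zero_le j) (h0 j)

/-- Splitting an infinite set of indices so that an ultrafilter avoids an infinite subset. -/
lemma exists_avoid {X : Type*} (V : Ultrafilter X) (g : X → ℕ) (K : Set ℕ) (hK : K.Infinite) :
    ∃ K' ⊆ K, K'.Infinite ∧ {x | g x ∉ K'} ∈ V := by
  classical
  obtain ⟨A, hA⟩ := exists_split (fun _ : Unit => K) (fun _ => hK)
  obtain ⟨h1, h2⟩ := hA ()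
  by_cases h : {x | g x ∉ K ∩ A} ∈ V
  · exact ⟨K ∩ A, inter_subset_left, h1, h⟩
  · refine ⟨K \ A, diff_subset, h2, ?_⟩
    have := Ultrafilter.compl_mem_iff_notMem.2 h
    refine mem_of_superset this ?_
    intro x hx
    simp only [mem_inter_iff, not_and, compl_setOf, not_forall, not_not, exists_prop,
      mem_setOf_eq] at hx
    simp [hx.2]

end TT
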