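import Mathlib
import Pool.Agent.Helper65.TT_Basic

/-!
# Order-theoretic preliminaries on a well-ordered type of type `ω₁`
-/

open Set Filter

namespace TT

variable {Ω : Type*} [LinearOrder Ω]

/-- Limit points of the order: nonempty initial segment without maximum. -/
def IsLim (α : Ω) : Prop := (∃ β, β < α) ∧ ∀ β < α, ∃ γ, β < γ ∧ γ < α

/-- Construction by transfinite recursion with a local requirement. -/
lemma exists_transfinite [WellFoundedLT Ω] {X : Type*}
    (P : (α : Ω) → (Iio α → X) → X → Prop)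
    (h : ∀ (α : Ω) (f : Iio α → X),
      (∀ β : Iio α, P β (fun γ : Iio (β : Ω) => f ⟨γ, lt_trans γ.2 β.2⟩) (f β)) →
        ∃ x, P α f x) :
    ∃ g : Ω → X, ∀ α, P α (fun β : Iio α => g β) (g α) := by
  classical
  rcases isEmpty_or_nonempty Ω with hE | hE
  · exact ⟨fun a => isEmptyElim a, fun a => isEmptyElim a⟩
  · have hX : Nonempty X := by
      obtain ⟨m, -, hm⟩ := (wellFounded_lt (α := Ω)).has_min (univ : Set Ω) univ_nonempty
      have hno : ∀ β : Iio m, False := fun β => hm β.1 (mem_univ _) β.2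
      obtain ⟨x, _⟩ := h m (fun β => (hno β).elim) (fun β => (hno β).elim)
      exact ⟨x⟩
    let F : (α : Ω) → ((β : Ω) → β < α → X) → X := fun α prev =>
      if hx : ∃ x, P α (fun β : Iio α => prev β.1 β.2) x then hx.choose else Classical.arbitrary X
    let g : Ω → X := (wellFounded_lt (α := Ω)).fix F
    have hg : ∀ α, g α = F α (fun β _ => g β) := fun α =>
      (wellFounded_lt (α := Ω)).fix_eq F α
    refine ⟨g, fun α => ?_⟩
    induction α using (wellFounded_lt (α := Ω)).induction with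
    | _ α ih =>
      have hx : ∃ x, P α (fun β : Iio α => g β) x := h α _ (fun β => ih β.1 β.2)
      rw [hg α]
      simp only [F]
      rw [dif_pos hx]
      exact hx.choose_spec

section Omega1

variable [WellFoundedLT Ω] (hc : ∀ a : Ω, (Iio a).Countable)
  (hu : ¬ (univ : Set Ω).Countable)

include hc hu

omit [WellFoundedLT Ω] in
/-- Countable sets are strictly bounded. -/
lemma exists_gt_of_countable (B : Set Ω) (hB : B.Countable) : ∃ x, ∀ b ∈ B, b < x := by
  by_contra hcon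
  push Not at hcon
  apply hu
  have : (⋃ b ∈ B, Iic b).Countable := by
    refine hB.biUnion fun b _ => ?_
    have : Iic b = insert b (Iio b) := by
      ext x; simp [le_iff_eq_or_lt]
    rw [this]
    exact (hc b).insert b
  refine this.mono ?_
  intro x _
  obtain ⟨b, hb, hxb⟩ := hcon x
  simp only [mem_iUnion, mem_Iic, exists_prop]
  exact ⟨b, hb, hxb⟩

omit [WellFoundedLT Ω] in
lemma exists_gt' (a : Ω) : ∃ x, a < x := by
  obtain ⟨x, hx⟩ := exists_gt_of_countable hc hu {a} (countable_singleton a)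
  exact ⟨x, hx a rfl⟩

omit [WellFoundedLT Ω] in
lemma exists_gt_seq (s : ℕ → Ω) : ∃ x, ∀ n, s n < x := by
  obtain ⟨x, hx⟩ := exists_gt_of_countable hc hu (range s) (countable_range s)
  exact ⟨x, fun n => hx _ ⟨n, rfl⟩⟩

/-- Every infinite set has a subset converging to a limit point. -/
lemma exists_lim_of_infinite (I : Set Ω) (hI : I.Infinite) :
    ∃ (δ : Ω) (J : Set Ω), J ⊆ I ∧ IsLim δ ∧ (∀ β ∈ J, β < δ) ∧ (∀ α < δ, ∃ β ∈ J, α < β) := by
  have hT : {x : Ω | (I ∩ Iio x).Infinite}.Nonempty := by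
    obtain ⟨x, hx⟩ := exists_gt_seq hc hu (fun n => (Set.Infinite.natEmbedding I hI n : Ω))
    refine ⟨x, ?_⟩
    have hinj : Function.Injective (fun n => (Set.Infinite.natEmbedding I hI n : Ω)) := by
      intro a b hab
      exact (Set.Infinite.natEmbedding I hI).injective (Subtype.ext hab)
    refine (infinite_range_of_injective hinj).mono ?_
    rintro _ ⟨n, rfl⟩
    exact ⟨(Set.Infinite.natEmbedding I hI n).2, hx n⟩
  obtain ⟨δ, hδ, hmin⟩ := (wellFounded_lt (α := Ω)).has_min _ hT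
  have hcof : ∀ α < δ, ∃ β ∈ I ∩ Iio δ, α < β := by
    intro α hα
    by_contra hcon
    push Not at hcon
    apply hmin α _ hα
    have h1 : (I ∩ Iio δ) ⊆ insert α (I ∩ Iio α) := by
      intro x hx
      rcases (hcon x hx).lt_or_eq with h | h
      · exact Or.inr ⟨hx.1, h⟩
      · exact Or.inl h
    intro hfin
    exact hδ ((hfin.insert α).subset h1)
  refine ⟨δ, I ∩ Iio δ, inter_subset_left, ⟨?_, ?_⟩, fun β hβ => hβ.2, hcof⟩
  · obtain ⟨β, hβ⟩ := (show (I ∩ Iio δ).Infinite from hδ).nonempty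
    exact ⟨β, hβ.2⟩
  · intro β hβ
    obtain ⟨γ, hγ, hγ'⟩ := hcof β hβ
    exact ⟨γ, hγ', hγ.2⟩

/-- Suprema of strictly increasing sequences. -/
lemma exists_sup_seq (s : ℕ → Ω) (hs : ∀ n, s n < s (n+1)) :
    ∃ δ, IsLim δ ∧ (∀ n, s n < δ) ∧ ∀ β < δ, ∃ n, β < s n := by
  obtain ⟨x, hx⟩ := exists_gt_seq hc hu s
  obtain ⟨δ, hδ, hmin⟩ := (wellFounded_lt (α := Ω)).has_min {x | ∀ n, s n < x} ⟨x, hx⟩
  have hcof : ∀ β < δ, ∃ n, β < s n := by
    intro β hβ
    by_contra hcon
    push Not at hcon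
    exact hmin β (fun n => lt_of_lt_of_le (hs n) (hcon (n+1))) hβ
  refine ⟨δ, ⟨⟨s 0, hδ 0⟩, fun β hβ => ?_⟩, hδ, hcof⟩
  obtain ⟨n, hn⟩ := hcof β hβ
  exact ⟨s n, hn, hδ n⟩

/-- The closure points of a function with countably many parameters below each point
form a club. -/
lemma isClub_closure {Q : Type*} (r : Q → Finset Ω) (G : Q → Ω)
    (hQ : ∀ a : Ω, {q : Q | ∀ η ∈ r q, η < a}.Countable) :
    IsClub {δ : Ω | IsLim δ ∧ ∀ q, (∀ η ∈ r q, η < δ) → G q < δ} := by
  classical
  constructor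
  · intro d hd hne _ a ha
    by_cases had : a ∈ d
    · exact hd had
    · have hlt : ∀ x ∈ d, x < a := fun x hx =>
        lt_of_le_of_ne (ha.1 hx) (fun h => had (h ▸ hx))
      have hcof : ∀ β < a, ∃ x ∈ d, β < x := by
        intro β hβ
        by_contra hcon
        push Not at hcon
        exact absurd (ha.2 (fun x hx => hcon x hx)) (not_le.2 hβ)
      refine ⟨⟨?_, ?_⟩, ?_⟩
      · obtain ⟨x, hx⟩ := hne
        exact ⟨x, hlt x hx⟩
      · intro β hβ
        obtain ⟨x, hx, hβx⟩ := hcof β hβ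
        exact ⟨x, hβx, hlt x hx⟩
      · intro q hq
        -- find an element of `d` above all parameters
        have : ∃ x ∈ d, ∀ η ∈ r q, η < x := by
          rcases (r q).eq_empty_or_nonempty with h0 | h0
          · obtain ⟨x, hx⟩ := hne
            exact ⟨x, hx, by simp [h0]⟩
          · obtain ⟨x, hx, hβx⟩ := hcof ((r q).max' h0) (hq _ (Finset.max'_mem _ _))
            exact ⟨x, hx, fun η hη => lt_of_le_of_lt (Finset.le_max' _ _ hη) hβx⟩
        obtain ⟨x, hx, hx'⟩ := this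
        exact lt_trans ((hd hx).2 q hx') (hlt x hx)
  · intro a
    have step : ∀ b : Ω, ∃ c, b < c ∧ ∀ q, (∀ η ∈ r q, η < b) → G q < c := by
      intro b
      obtain ⟨c, hcc⟩ := exists_gt_of_countable hc hu
        (insert b (G '' {q : Q | ∀ η ∈ r q, η < b})) (((hQ b).image G).insert b)
      exact ⟨c, hcc b (mem_insert _ _), fun q hq => hcc _ (Or.inr ⟨q, hq, rfl⟩)⟩
    choose nx hnx1 hnx2 using step
    let s : ℕ → Ω := fun n => Nat.rec a (fun _ x => nx x) n
    obtain ⟨δ, hδ1, hδ2, hδ3⟩ := exists_sup_seq hc hu s (fun n => hnx1 _)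
    refine ⟨δ, ⟨hδ1, fun q hq => ?_⟩, (hδ2 0).le⟩
    have hmono : StrictMono s := strictMono_nat_of_lt_succ fun n => hnx1 _
    have : ∃ n, ∀ η ∈ r q, η < s n := by
      rcases (r q).eq_empty_or_nonempty with h0 | h0
      · exact ⟨0, by simp [h0]⟩
      · obtain ⟨n, hn⟩ := hδ3 ((r q).max' h0) (hq _ (Finset.max'_mem _ _))
        exact ⟨n, fun η hη => lt_of_le_of_lt (Finset.le_max' _ _ hη) hn⟩
    obtain ⟨n, hn⟩ := this
    exact lt_trans (hnx2 (s n) q hn) (hδ2 (n+1))

end Omega1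

/-- A cofinal strictly increasing sequence below a limit with countable initial segment. -/
lemma exists_cofinal_seq {α : Ω} (hα : IsLim α) (hc : (Iio α).Countable) :
    ∃ d : ℕ → Iio α, (∀ n, d n < d (n+1)) ∧ ∀ β : Iio α, ∃ n, β < d n := by
  classical
  obtain ⟨⟨b0, hb0⟩, hlim⟩ := hα
  have : Nonempty (Iio α) := ⟨⟨b0, hb0⟩⟩
  have : Countable (Iio α) := hc.to_subtype
  obtain ⟨e, he⟩ := exists_surjective_nat (Iio α)
  have step : ∀ (x : Iio α) (n : ℕ), ∃ y : Iio α, x < y ∧ e n < y := by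
    intro x n
    obtain ⟨y, hy1, hy2⟩ := hlim (max (x : Ω) (e n)) (max_lt x.2 (e n).2)
    exact ⟨⟨y, hy2⟩, lt_of_le_of_lt (le_max_left _ _) hy1, lt_of_le_of_lt (le_max_right _ _) hy1⟩
  choose nx h1 h2 using step
  refine ⟨fun n => Nat.rec (nx (e 0) 0) (fun k x => nx x (k+1)) n, fun n => h1 _ _, fun β => ?_⟩
  obtain ⟨n, rfl⟩ := he β
  refine ⟨n, ?_⟩
  cases n with
  | zero => exact h2 _ _
  | succ n => exact h2 _ _

end TT
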