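import Mathlib
import Pool.Agent.Helper65.TT_Order

/-!
# The stage requirements of the diamond construction and their realisability
-/

open Set Filter

namespace TT

/-- The data chosen at each stage. -/
structure St where
  /-- a set of columns -/
  u : Set ℕ
  /-- an infinite set in every column -/
  D : ℕ → Set ℕ
  /-- the new set `A_α`, given by its columns -/
  A : ℕ → Set ℕ

/-- `Pat C k Z`: on the box `k × k` the set with columns `C` is `Z`. -/
def Pat (C : ℕ → Set ℕ) (k : ℕ) (Z : Finset (ℕ × ℕ)) : Prop :=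
  ∀ j < k, ∀ l < k, (l ∈ C j ↔ (j, l) ∈ Z)

/-- Column `j` of the finite intersection coded by `B` and `F`. -/
def cell {I : Type*} (D C : I → ℕ → Set ℕ) (B F : Finset (ℕ × I)) (j : ℕ) : Set ℕ :=
  {l | (∀ x ∈ B, x.1 = j → l ∈ D x.2 j) ∧ ∀ x ∈ F, x.1 = j → l ∈ C x.2 j}

variable {Ω : Type*} [LinearOrder Ω]

/-- The requirements at stage `α`. -/
structure Good (S : Set Ω) (Y : Ω → ℕ → Set ℕ) (G : Ω → Ω → ℕ → Set ℕ)
    (α : Ω) (g : Ω → St) (s : St) : Prop where
  uinf : s.u.Infinite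
  Dinf : ∀ j, (s.D j).Infinite
  below : ∀ β < α, AS s.u (g β).u ∧ ∀ᶠ j in atTop, AS (s.D j) ((g β).D j ∩ (g β).A j)
  dec : (∀ j ∈ s.u, AS (s.D j) (Y α j)) ∨ (∀ j ∈ s.u, (s.D j ∩ Y α j).Finite)
  kill : IsLim α → α ∈ S → ∀ j, ∃ η < α, ∀ β < α, η ≤ β → (s.D j ∩ (g β).A j).Finite
  sealing : IsLim α → α ∉ S → ∀ (a : Finset ℕ) (k : ℕ) (Z : Finset (ℕ × ℕ)) (ζ : Ω), ζ < α →
      (∃ ξ, ζ < ξ ∧ ξ < α ∧ Pat (G α ξ) k Z ∧ ∀ j ∈ a, AS (s.D j) (G α ξ j)) ∨
      (∃ (B F : Finset (ℕ × Ω)), (∀ x ∈ B, x.2 < α) ∧ (∀ x ∈ F, x.2 < α) ∧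
         (∀ j ∈ a, AS (s.D j) (cell (fun β => (g β).D) (G α) B F j)) ∧
         ∀ ξ, ζ < ξ → ξ < α → Pat (G α ξ) k Z →
          ¬ ∀ j ∈ a, (cell (fun β => (g β).D) (G α) B F j ∩ G α ξ j).Infinite)
  splits : ∀ j, (∀ γ < α, ∀ F : Finset Ω, (∀ β ∈ F, γ ≤ β ∧ β < α) →
        Split ((g γ).D j \ ⋃ β ∈ F, (g β).A j) (s.A j)) ∧ Split (s.D j) (s.A j)

lemma cell_congr {I : Type*} {D D' C : I → ℕ → Set ℕ} {B F : Finset (ℕ × I)}
    (h : ∀ x ∈ B, D x.2 = D' x.2) (j : ℕ) : cell D C B F j = cell D' C B F j := by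
  ext l
  simp only [cell]
  constructor
  · rintro ⟨h1, h2⟩
    exact ⟨fun x hx hj => h x hx ▸ h1 x hx hj, h2⟩
  · rintro ⟨h1, h2⟩
    exact ⟨fun x hx hj => (h x hx).symm ▸ h1 x hx hj, h2⟩

/-- The requirements at stage `α` only depend on the data below `α`. -/
lemma Good.congr {S : Set Ω} {Y : Ω → ℕ → Set ℕ} {G : Ω → Ω → ℕ → Set ℕ}
    {α : Ω} {g g' : Ω → St} {s : St} (h : ∀ β < α, g β = g' β) (hs : Good S Y G α g s) :
    Good S Y G α g' s where
  uinf := hs.uinf
  Dinf := hs.Dinf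
  below := fun β hβ => by
    have := hs.below β hβ
    rwa [h β hβ] at this
  dec := hs.dec
  kill := fun h1 h2 j => by
    obtain ⟨η, hη, h3⟩ := hs.kill h1 h2 j
    refine ⟨η, hη, fun β hβ hηβ => ?_⟩
    have := h3 β hβ hηβ
    rwa [h β hβ] at this
  sealing := fun h1 h2 a k Z ζ hζ => by
    rcases hs.sealing h1 h2 a k Z ζ hζ with h3 | ⟨B, F, hB, hF, h3, h4⟩
    · exact Or.inl h3
    · right
      have hcell : ∀ j, cell (fun β => (g β).D) (G α) B F j
          = cell (fun β => (g' β).D) (G α) B F j := fun j =>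
        cell_congr (fun x hx => by simp only [h x.2 (hB x hx)]) j
      refine ⟨B, F, hB, hF, fun j hj => ?_, fun ξ h5 h6 h7 h8 => ?_⟩
      · rw [← hcell]; exact h3 j hj
      · refine h4 ξ h5 h6 h7 fun j hj => ?_
        rw [hcell]; exact h8 j hj
  splits := fun j => by
    refine ⟨fun γ hγ F hF => ?_, (hs.splits j).2⟩
    have h1 := (hs.splits j).1 γ hγ F hF
    have h2 : (⋃ β ∈ F, (g β).A j) = ⋃ β ∈ F, (g' β).A j :=
      iUnion₂_congr fun β hβ => by rw [h β (hF β hβ).2]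
    rwa [h2, h γ hγ] at h1

lemma AS.biInter {I : Type*} {s : Set ℕ} {B : I → Set ℕ} (F : Finset I)
    (h : ∀ i ∈ F, AS s (B i)) : AS s {l | ∀ i ∈ F, l ∈ B i} := by
  classical
  induction F using Finset.induction_on with
  | empty => exact AS.of_subset (fun x _ => by simp)
  | insert a F ha ih =>
    have h1 := ih (fun i hi => h i (Finset.mem_insert_of_mem hi))
    have h2 := h a (Finset.mem_insert_self _ _)
    refine (h2.inter h1).mono_right ?_
    rintro x ⟨hx1, hx2⟩ i hi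
    rcases Finset.mem_insert.1 hi with rfl | hi
    · exact hx1
    · exact hx2 i hi

section

variable {S : Set Ω} {Y : Ω → ℕ → Set ℕ} {G : Ω → Ω → ℕ → Set ℕ} {α : Ω} {g : Ω → St}

/-- Independence of later sets `A_β` over `D_γ`. -/
lemma ind (hg : ∀ β < α, Good S Y G β g (g β)) {γ : Ω} (hγ : γ < α) (j : ℕ) (F : Finset Ω) :
    (∀ β ∈ F, γ ≤ β ∧ β < α) → ((g γ).D j \ ⋃ β ∈ F, (g β).A j).Infinite := by
  classical
  induction F using Finset.induction_on_max with
  | empty => intro _; simpa using (hg γ hγ).Dinf j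
  | insert a F ha ih =>
    intro h
    have hrw : (g γ).D j \ ⋃ β ∈ insert a F, (g β).A j
        = ((g γ).D j \ ⋃ β ∈ F, (g β).A j) \ (g a).A j := by
      ext x
      simp only [Set.mem_sdiff, Finset.mem_insert, mem_iUnion, exists_prop, not_exists, not_and]
      constructor
      · rintro ⟨h1, h2⟩
        exact ⟨⟨h1, fun β hβ => h2 β (Or.inr hβ)⟩, h2 a (Or.inl rfl)⟩
      · rintro ⟨⟨h1, h2⟩, h3⟩
        refine ⟨h1, fun β hβ => ?_⟩
        rcases hβ with rfl | hβ
        · exact h3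
        · exact h2 β hβ
    rw [hrw]
    have ha' := h a (Finset.mem_insert_self _ _)
    rcases ha'.1.lt_or_eq with hlt | heq
    · exact (((hg a ha'.2).splits j).1 γ hlt F
        (fun β hβ => ⟨(h β (Finset.mem_insert_of_mem hβ)).1, ha β hβ⟩)).2
    · subst heq
      have hF : F = ∅ := by
        apply Finset.eq_empty_of_forall_notMem
        intro β hβ
        exact absurd (ha β hβ) (not_lt.2 (h β (Finset.mem_insert_of_mem hβ)).1)
      subst hF
      simpa using (((hg γ hγ).splits j).2).2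

/-- The base columns at a limit stage. -/
lemma base_limit (hg : ∀ β < α, Good S Y G β g (g β)) (hα : IsLim α) (hc : (Iio α).Countable) :
    ∃ d : ℕ → Ω, (∀ j, d j < α) ∧
      ∀ β < α, ∀ᶠ j in atTop, AS ((g (d j)).D j) ((g β).D j ∩ (g β).A j) := by
  obtain ⟨d, hd1, hd2⟩ := exists_cofinal_seq hα hc
  have hmono : StrictMono d := strictMono_nat_of_lt_succ hd1
  obtain ⟨κ, hκ1, hκ2⟩ := exists_kappa
    (fun k j => ∀ i ≤ k, AS ((g (d k)).D j) ((g (d i)).D j))
    (fun j i hi => by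
      have : i = 0 := by omega
      subst this; exact AS.refl _)
    (fun k => by
      have : ∀ i ∈ Finset.range (k+1), ∀ᶠ j in atTop, AS ((g (d k)).D j) ((g (d i)).D j) := by
        intro i hi
        rcases (Nat.lt_succ_iff.1 (Finset.mem_range.1 hi)).lt_or_eq with h | h
        · have h1 : ((d i : Iio α) : Ω) < d k := hmono h
          filter_upwards [((hg (d k) (d k).2).below (d i) h1).2] with j hj
          exact hj.mono_right inter_subset_left
        · subst h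
          exact Eventually.of_forall fun j => AS.refl _
      filter_upwards [(Finset.eventually_all _).2 this] with j hj i hi
      exact hj i (by simpa using by omega))
  refine ⟨fun j => d (κ j), fun j => (d (κ j)).2, fun β hβ => ?_⟩
  obtain ⟨n, hn⟩ := hd2 ⟨β, hβ⟩
  have hn' : β < (d n : Ω) := hn
  filter_upwards [((hg (d n) (d n).2).below β hn').2, hκ1.eventually_ge_atTop n] with j hj1 hj2
  exact (hκ2 j n hj2).trans hj1

/-- The greedy sealing construction. -/
lemma greedy (hc : (Iio α).Countable) (hne : ∃ β, β < α) (R : ℕ → Set ℕ)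
    (hR : ∀ j, (R j).Infinite) (C : Ω → ℕ → Set ℕ) :
    ∃ r : ℕ → Set ℕ, (∀ j, (r j).Infinite) ∧ (∀ j, AS (r j) (R j)) ∧
      ∀ (a : Finset ℕ) (k : ℕ) (Z : Finset (ℕ × ℕ)) (ζ : Ω), ζ < α →
      (∃ ξ, ζ < ξ ∧ ξ < α ∧ Pat (C ξ) k Z ∧ ∀ j ∈ a, AS (r j) (C ξ j)) ∨
      (∃ (F : Finset (ℕ × Ω)), (∀ x ∈ F, x.2 < α) ∧
         (∀ j ∈ a, AS (r j) (R j ∩ {l | ∀ x ∈ F, x.1 = j → l ∈ C x.2 j})) ∧
         ∀ ξ, ζ < ξ → ξ < α → Pat (C ξ) k Z →
          ¬ ∀ j ∈ a, ((R j ∩ {l | ∀ x ∈ F, x.1 = j → l ∈ C x.2 j}) ∩ C ξ j).Infinite) := by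
  classical
  obtain ⟨b0, hb0⟩ := hne
  have hN : Nonempty (Iio α) := ⟨⟨b0, hb0⟩⟩
  have hC : Countable (Iio α) := hc.to_subtype
  obtain ⟨e, he⟩ := exists_surjective_nat (Finset ℕ × ℕ × Finset (ℕ × ℕ) × Iio α)
  -- the current columns
  let W : Finset (ℕ × Ω) → ℕ → Set ℕ := fun F j => R j ∩ {l | ∀ x ∈ F, x.1 = j → l ∈ C x.2 j}
  let T : (Finset ℕ × ℕ × Finset (ℕ × ℕ) × Iio α) → Finset (ℕ × Ω) → Ω → Prop := fun q F ξ =>
    (q.2.2.2 : Ω) < ξ ∧ ξ < α ∧ Pat (C ξ) q.2.1 q.2.2.1 ∧ ∀ j ∈ q.1, (W F j ∩ C ξ j).Infinite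
  let step : (Finset ℕ × ℕ × Finset (ℕ × ℕ) × Iio α) → Finset (ℕ × Ω) → Finset (ℕ × Ω) :=
    fun q F => if h : ∃ ξ, T q F ξ then F ∪ q.1.image (fun j => (j, h.choose)) else F
  let Fs : ℕ → Finset (ℕ × Ω) := fun n => Nat.rec ∅ (fun n F => step (e n) F) n
  have hFs : ∀ n, Fs (n+1) = step (e n) (Fs n) := fun n => rfl
  have hsub : ∀ q F, F ⊆ step q F := by
    intro q F
    simp only [step]
    split_ifs with h
    · exact Finset.subset_union_left
    · exact Finset.Subset.refl _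
  have hmono : Monotone Fs := monotone_nat_of_le_succ fun n => by
    rw [hFs]; exact hsub _ _
  have hWanti : ∀ {F F' : Finset (ℕ × Ω)}, F ⊆ F' → ∀ j, W F' j ⊆ W F j := by
    intro F F' h j l hl
    exact ⟨hl.1, fun x hx => hl.2 x (h hx)⟩
  have hlt : ∀ n, ∀ x ∈ Fs n, x.2 < α := by
    intro n
    induction n with
    | zero => intro x hx; simp [Fs] at hx
    | succ n ih =>
      rw [hFs]
      simp only [step]
      split_ifs with h
      · intro x hx
        rcases Finset.mem_union.1 hx with hx | hx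
        · exact ih x hx
        · obtain ⟨j, _, rfl⟩ := Finset.mem_image.1 hx
          exact h.choose_spec.2.1
      · exact ih
  have hinf : ∀ n j, (W (Fs n) j).Infinite := by
    intro n
    induction n with
    | zero => intro j; simpa [W, Fs] using hR j
    | succ n ih =>
      intro j
      rw [hFs]
      simp only [step]
      split_ifs with h
      · by_cases hj : j ∈ (e n).1
        · refine (h.choose_spec.2.2.2 j hj).mono ?_
          rintro l ⟨⟨hl1, hl2⟩, hl3⟩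
          refine ⟨hl1, fun x hx hxj => ?_⟩
          rcases Finset.mem_union.1 hx with hx | hx
          · exact hl2 x hx hxj
          · obtain ⟨j', _, rfl⟩ := Finset.mem_image.1 hx
            simp only at hxj
            subst hxj
            exact hl3
        · refine (ih j).mono ?_
          rintro l ⟨hl1, hl2⟩
          refine ⟨hl1, fun x hx hxj => ?_⟩
          rcases Finset.mem_union.1 hx with hx | hx
          · exact hl2 x hx hxj
          · obtain ⟨j', hj', rfl⟩ := Finset.mem_image.1 hx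
            simp only at hxj
            subst hxj
            exact absurd hj' hj
      · exact ih j
  have hps : ∀ j, ∃ P : Set ℕ, P.Infinite ∧ ∀ n, AS P (W (Fs n) j) := fun j => by
    refine exists_pseudo (fun n => W (Fs n) j) (fun F => ?_)
    refine (hinf (F.sup id) j).mono ?_
    intro l hl i hi
    exact hWanti (hmono (Finset.le_sup (f := id) hi)) j hl
  choose r hr1 hr2 using hps
  refine ⟨r, hr1, fun j => (hr2 j 0).mono_right inter_subset_left, fun a k Z ζ hζ => ?_⟩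
  obtain ⟨n, hn⟩ := he (a, k, Z, ⟨ζ, hζ⟩)
  by_cases h : ∃ ξ, T (e n) (Fs n) ξ
  · left
    have hs := h.choose_spec
    have hstep : Fs (n+1) = Fs n ∪ (e n).1.image (fun j => (j, h.choose)) := by
      rw [hFs]; simp only [step]; rw [dif_pos h]
    obtain ⟨ξ0, hξ0⟩ : ∃ ξ0, ξ0 = h.choose := ⟨_, rfl⟩
    rw [← hξ0] at hs hstep
    rw [hn] at hs
    refine ⟨ξ0, hs.1, hs.2.1, hs.2.2.1, fun j hj => ?_⟩
    refine (hr2 j (n+1)).mono_right ?_
    rintro l ⟨_, hl⟩
    refine hl (j, ξ0) ?_ rfl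
    rw [hstep]
    refine Finset.mem_union_right _ (Finset.mem_image.2 ⟨j, ?_, rfl⟩)
    rw [hn]; exact hj
  · right
    refine ⟨Fs n, hlt n, fun j _ => hr2 j n, fun ξ h1 h2 h3 h4 => h ⟨ξ, ?_⟩⟩
    rw [hn]
    exact ⟨h1, h2, h3, h4⟩

end

end TT
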