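import Mathlib
import Pool.Agent.Helper65.TT_Stage

/-!
# Realisability of every stage
-/

open Set Filter

namespace TT

variable {Ω : Type*} [LinearOrder Ω]
variable {S : Set Ω} {Y : Ω → ℕ → Set ℕ} {G : Ω → Ω → ℕ → Set ℕ} {α : Ω} {g : Ω → St}

/-- Step A: base columns with the killing or sealing property. -/
lemma stepA (hc : ∀ a : Ω, (Iio a).Countable) (hg : ∀ β < α, Good S Y G β g (g β)) :
    ∃ r : ℕ → Set ℕ, (∀ j, (r j).Infinite) ∧
      (∀ β < α, ∀ᶠ j in atTop, AS (r j) ((g β).D j ∩ (g β).A j)) ∧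
      (IsLim α → α ∈ S → ∀ j, ∃ η < α, ∀ β < α, η ≤ β → (r j ∩ (g β).A j).Finite) ∧
      (IsLim α → α ∉ S → ∀ (a : Finset ℕ) (k : ℕ) (Z : Finset (ℕ × ℕ)) (ζ : Ω), ζ < α →
        (∃ ξ, ζ < ξ ∧ ξ < α ∧ Pat (G α ξ) k Z ∧ ∀ j ∈ a, AS (r j) (G α ξ j)) ∨
        (∃ (B F : Finset (ℕ × Ω)), (∀ x ∈ B, x.2 < α) ∧ (∀ x ∈ F, x.2 < α) ∧
           (∀ j ∈ a, AS (r j) (cell (fun β => (g β).D) (G α) B F j)) ∧
           ∀ ξ, ζ < ξ → ξ < α → Pat (G α ξ) k Z →
            ¬ ∀ j ∈ a, (cell (fun β => (g β).D) (G α) B F j ∩ G α ξ j).Infinite)) := by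
  classical
  by_cases hα : IsLim α
  · obtain ⟨d, hd1, hd2⟩ := base_limit hg hα (hc α)
    have hC : Countable (Iio α) := (hc α).to_subtype
    by_cases hS : α ∈ S
    · -- killing
      have hps : ∀ j, ∃ P : Set ℕ, P.Infinite ∧
          ∀ i : {β : Iio α // d j ≤ β}, AS P ((g (d j)).D j \ (g (i.1 : Ω)).A j) := fun j => by
        refine exists_pseudo _ (fun F => ?_)
        refine (ind hg (hd1 j) j (F.image fun i => ((i.1 : Iio α) : Ω)) ?_).mono ?_
        · intro β hβ
          obtain ⟨i, _, rfl⟩ := Finset.mem_image.1 hβ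
          exact ⟨i.2, i.1.2⟩
        · rintro l ⟨hl1, hl2⟩ i hi
          refine ⟨hl1, fun hl => hl2 ?_⟩
          simp only [mem_iUnion, exists_prop]
          exact ⟨_, Finset.mem_image_of_mem _ hi, hl⟩
      choose r hr1 hr2 using hps
      have hr3 : ∀ j, AS (r j) ((g (d j)).D j) := fun j =>
        (hr2 j ⟨⟨d j, hd1 j⟩, le_refl _⟩).mono_right (fun x hx => hx.1)
      refine ⟨r, hr1, fun β hβ => ?_, fun _ _ j => ?_, fun _ h => absurd hS h⟩
      · filter_upwards [hd2 β hβ] with j hj
        exact (hr3 j).trans hj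
      · refine ⟨d j, hd1 j, fun β hβ hdβ => ?_⟩
        have := hr2 j ⟨⟨β, hβ⟩, hdβ⟩
        refine Set.Finite.subset this ?_
        rintro x ⟨hx1, hx2⟩
        exact ⟨hx1, fun hx3 => hx3.2 hx2⟩
    · -- sealing
      obtain ⟨r, hr1, hr2, hr3⟩ := greedy (hc α) hα.1 (fun j => (g (d j)).D j)
        (fun j => (hg (d j) (hd1 j)).Dinf j) (G α)
      refine ⟨r, hr1, fun β hβ => ?_, fun _ h => absurd h hS, fun _ _ a k Z ζ hζ => ?_⟩
      · filter_upwards [hd2 β hβ] with j hj
        exact (hr2 j).trans hj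
      · rcases hr3 a k Z ζ hζ with h | ⟨F, hF1, hF2, hF3⟩
        · exact Or.inl h
        · right
          have hcell : ∀ j ∈ a, cell (fun β => (g β).D) (G α) (a.image fun j => (j, d j)) F j
              = (g (d j)).D j ∩ {l | ∀ x ∈ F, x.1 = j → l ∈ G α x.2 j} := by
            intro j hj
            ext l
            constructor
            · rintro ⟨h1, h2⟩
              exact ⟨h1 (j, d j) (Finset.mem_image_of_mem _ hj) rfl, h2⟩
            · rintro ⟨h1, h2⟩
              refine ⟨fun x hx hxj => ?_, h2⟩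
              obtain ⟨j', _, rfl⟩ := Finset.mem_image.1 hx
              simp only at hxj
              subst hxj
              exact h1
          refine ⟨a.image fun j => (j, d j), F, ?_, hF1, fun j hj => ?_, fun ξ h1 h2 h3 h4 => ?_⟩
          · intro x hx
            obtain ⟨j', _, rfl⟩ := Finset.mem_image.1 hx
            exact hd1 j'
          · rw [hcell j hj]; exact hF2 j hj
          · refine hF3 ξ h1 h2 h3 fun j hj => ?_
            rw [← hcell j hj]; exact h4 j hj
  · -- bottom or successor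
    by_cases hb : ∃ β, β < α
    · have : ∃ β < α, ∀ γ < α, γ ≤ β := by
        by_contra hcon
        push Not at hcon
        exact hα ⟨hb, fun β hβ => (hcon β hβ).imp fun γ h => ⟨h.2, h.1⟩⟩
      obtain ⟨β, hβ, hmax⟩ := this
      refine ⟨fun j => (g β).D j ∩ (g β).A j, fun j => ((hg β hβ).splits j).2.1, fun γ hγ => ?_,
        fun h => absurd h hα, fun h => absurd h hα⟩
      rcases (hmax γ hγ).lt_or_eq with h | h
      · filter_upwards [((hg β hβ).below γ h).2] with j hj
        exact hj.mono_left inter_subset_left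
      · subst h
        exact Eventually.of_forall fun j => AS.refl _
    · push Not at hb
      exact ⟨fun _ => univ, fun _ => infinite_univ, fun β hβ => absurd hβ (not_lt.2 (hb β)),
        fun h => absurd h hα, fun h => absurd h hα⟩

/-- Every stage can be realised. -/
lemma exists_stage (hc : ∀ a : Ω, (Iio a).Countable) (hg : ∀ β < α, Good S Y G β g (g β)) :
    ∃ s, Good S Y G α g s := by
  classical
  have hC : Countable (Iio α) := (hc α).to_subtype
  obtain ⟨r, hr1, hr2, hr3, hr4⟩ := stepA hc hg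
  -- step B
  let D : ℕ → Set ℕ := fun j => if (r j ∩ Y α j).Infinite then r j ∩ Y α j else r j
  have hDr : ∀ j, D j ⊆ r j := fun j => by
    simp only [D]; split_ifs
    · exact inter_subset_left
    · exact Subset.refl _
  have hDinf : ∀ j, (D j).Infinite := fun j => by
    simp only [D]; split_ifs with h
    · exact h
    · exact hr1 j
  have hDdec : ∀ j, ¬ AS (D j) (Y α j) → (D j ∩ Y α j).Finite := fun j hj => by
    by_cases h : (r j ∩ Y α j).Infinite
    · exfalso
      apply hj
      have : D j = r j ∩ Y α j := if_pos h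
      rw [this]
      exact AS.of_subset inter_subset_right
    · have : D j = r j := if_neg h
      rw [this]
      exact not_infinite.1 h
  -- step C
  obtain ⟨P, hP1, hP2⟩ := exists_pseudo (fun β : Iio α => (g (β : Ω)).u) (fun F => by
    rcases F.eq_empty_or_nonempty with h | h
    · subst h; simpa using infinite_univ
    · have hm := (F.max' h)
      have h1 : AS (g ((F.max' h : Iio α) : Ω)).u {l | ∀ β ∈ F, l ∈ (g (β : Ω)).u} := by
        refine AS.biInter F fun β hβ => ?_
        rcases (Finset.le_max' F β hβ).lt_or_eq with h2 | h2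
        · exact ((hg (F.max' h) (F.max' h).2).below β h2).1
        · rw [← h2]; exact AS.refl _
      exact h1.infinite (hg _ (F.max' h).2).uinf)
  let T : Set ℕ := {j | AS (D j) (Y α j)}
  let u : Set ℕ := if (P ∩ T).Infinite then P ∩ T else P \ T
  have huP : u ⊆ P := by
    simp only [u]; split_ifs
    · exact inter_subset_left
    · exact fun x hx => hx.1
  have huinf : u.Infinite := by
    simp only [u]; split_ifs with h
    · exact h
    · intro h'
      apply hP1
      refine ((not_infinite.1 h).union h').subset ?_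
      intro x hx
      by_cases hxT : x ∈ T
      · exact Or.inl ⟨hx, hxT⟩
      · exact Or.inr ⟨hx, hxT⟩
  -- step D
  have hA : ∀ j, ∃ A : Set ℕ, ∀ i : Option (Iio α × Finset (Iio α)), Split
      (match i with
        | none => D j
        | some p => if ∀ β ∈ p.2, p.1 ≤ β then
            (g (p.1 : Ω)).D j \ ⋃ β ∈ p.2.image (fun x : Iio α => (x : Ω)), (g β).A j else D j)
      A := by
    intro j
    refine exists_split _ fun i => ?_
    match i with
    | none => exact hDinf j
    | some p =>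
      simp only
      split_ifs with h
      · refine ind hg p.1.2 j _ fun β hβ => ?_
        obtain ⟨x, hx, rfl⟩ := Finset.mem_image.1 hβ
        exact ⟨h x hx, x.2⟩
      · exact hDinf j
  choose A hA using hA
  refine ⟨⟨u, D, A⟩, huinf, hDinf, fun β hβ => ⟨?_, ?_⟩, ?_, fun h1 h2 j => ?_,
    fun h1 h2 a k Z ζ hζ => ?_, fun j => ⟨fun γ hγ F hF => ?_, hA j none⟩⟩
  · exact (hP2 ⟨β, hβ⟩).mono_left huP
  · filter_upwards [hr2 β hβ] with j hj
    exact hj.mono_left (hDr j)
  · by_cases h : (P ∩ T).Infinite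
    · left
      intro j hj
      have : u = P ∩ T := if_pos h
      simp only [this] at hj
      exact hj.2
    · right
      intro j hj
      have : u = P \ T := if_neg h
      simp only [this] at hj
      exact hDdec j hj.2
  · obtain ⟨η, hη, h3⟩ := hr3 h1 h2 j
    exact ⟨η, hη, fun β hβ hηβ => (h3 β hβ hηβ).subset (inter_subset_inter_left _ (hDr j))⟩
  · rcases hr4 h1 h2 a k Z ζ hζ with ⟨ξ, h3, h4, h5, h6⟩ | ⟨B, F, hB, hF, h3, h4⟩
    · exact Or.inl ⟨ξ, h3, h4, h5, fun j hj => (h6 j hj).mono_left (hDr j)⟩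
    · exact Or.inr ⟨B, F, hB, hF, fun j hj => (h3 j hj).mono_left (hDr j), h4⟩
  · let F' : Finset (Iio α) := F.attach.image (fun x => (⟨x.1, (hF x.1 x.2).2⟩ : Iio α))
    have h1 := hA j (some (⟨γ, hγ⟩, F'))
    have h2 : ∀ β ∈ F', (⟨γ, hγ⟩ : Iio α) ≤ β := by
      intro β hβ
      obtain ⟨x, _, rfl⟩ := Finset.mem_image.1 hβ
      exact (hF x.1 x.2).1
    have h3 : F'.image (fun x : Iio α => (x : Ω)) = F := by
      ext x
      constructor
      · intro hx
        obtain ⟨y, hy, rfl⟩ := Finset.mem_image.1 hx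
        obtain ⟨z, _, rfl⟩ := Finset.mem_image.1 hy
        exact z.2
      · intro hx
        exact Finset.mem_image.2 ⟨⟨x, (hF x hx).2⟩,
          Finset.mem_image.2 ⟨⟨x, hx⟩, Finset.mem_attach _ _, rfl⟩, rfl⟩
    simp only at h1
    rw [if_pos h2] at h1
    rw [h3] at h1
    exact h1

end TT
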