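import Mathlib
import Pool.Agent.Helper65.TT_Exists

/-!
# The ultrafilter: `S`-top but not Tukey-top
-/

open Set Filter

namespace TT

variable {Ω : Type*} [LinearOrder Ω]

/-- `E` is in the filter of stage `γ`. -/
def Big (g : Ω → St) (γ : Ω) (E : Set (ℕ × ℕ)) : Prop :=
  ∀ᶠ j in atTop, j ∈ (g γ).u → AS ((g γ).D j) {l | (j, l) ∈ E}

omit [LinearOrder Ω] in
lemma Big.mono {g : Ω → St} {γ : Ω} {E E' : Set (ℕ × ℕ)} (h : Big g γ E) (h' : E ⊆ E') :
    Big g γ E' := by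
  filter_upwards [h] with j hj hju
  exact (hj hju).mono_right (fun l hl => h' hl)

omit [LinearOrder Ω] in
lemma Big.inter {g : Ω → St} {γ : Ω} {E E' : Set (ℕ × ℕ)} (h : Big g γ E) (h' : Big g γ E') :
    Big g γ (E ∩ E') := by
  filter_upwards [h, h'] with j hj hj' hju
  exact (hj hju).inter (hj' hju)

lemma exists_idx (ks : ℕ → ℕ) (hks : StrictMono ks) :
    ∃ idx : ℕ → ℕ, ∀ i n, ks i ≤ n → n < ks (i+1) → idx n = i := by
  classical
  refine ⟨fun n => Nat.findGreatest (fun i => ks i ≤ n) n, fun i n h1 h2 => ?_⟩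
  have hin : i ≤ n := le_trans (hks.id_le i) h1
  apply le_antisymm
  · by_contra hcon
    push Not at hcon
    have h3 : ks (Nat.findGreatest (fun i => ks i ≤ n) n) ≤ n :=
      Nat.findGreatest_spec (P := fun i => ks i ≤ n) hin h1
    have h4 : ks (i+1) ≤ ks (Nat.findGreatest (fun i => ks i ≤ n) n) := hks.monotone hcon
    omega
  · exact Nat.le_findGreatest hin h1

lemma eventually_mem_of_AS {s t : Set ℕ} (h : AS s t) : ∀ᶠ j in atTop, j ∈ s → j ∈ t := by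
  have h1 : (s \ t).Finite := h
  obtain ⟨b, hb⟩ := h1.bddAbove
  filter_upwards [eventually_gt_atTop b] with j hj hjs
  by_contra hjt
  exact absurd (hb ⟨hjs, hjt⟩) (not_le.2 hj)

section

variable {S : Set Ω} {Y : Ω → ℕ → Set ℕ} {G : Ω → Ω → ℕ → Set ℕ} {g : Ω → St}

lemma Big.up (hg : ∀ α, Good S Y G α g (g α)) {γ γ' : Ω} (h : γ ≤ γ') {E : Set (ℕ × ℕ)}
    (hE : Big g γ E) : Big g γ' E := by
  rcases h.lt_or_eq with h | h
  · have hb := (hg γ').below γ h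
    filter_upwards [hE, hb.2, eventually_mem_of_AS hb.1] with j h1 h2 h3 hju
    exact (h2.mono_right inter_subset_left).trans (h1 (h3 hju))
  · rwa [← h]

lemma not_big_empty (hg : ∀ α, Good S Y G α g (g α)) (γ : Ω) : ¬ Big g γ ∅ := by
  intro h
  obtain ⟨b, hb⟩ := eventually_atTop.1 h
  obtain ⟨j, hj, hbj⟩ := (hg γ).uinf.exists_gt b
  have h1 := hb j hbj.le hj
  have h2 := h1.infinite ((hg γ).Dinf j)
  exact h2 (by simp)

/-- The countability of the parameter set below a point. -/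
lemma countable_finset_below (a : Ω) (h : (Iio a).Countable) :
    {B : Finset (ℕ × Ω) | ∀ x ∈ B, x.2 < a}.Countable := by
  have h1 : {x : ℕ × Ω | x.2 < a}.Countable := by
    have : {x : ℕ × Ω | x.2 < a} = univ ×ˢ Iio a := by ext x; simp
    rw [this]
    exact countable_univ.prod h
  have h2 := Set.countable_ofPred_finite_subset h1
  refine (h2.preimage_of_injOn (f := fun B : Finset (ℕ × Ω) => (B : Set (ℕ × Ω)))
    (fun _ _ _ _ h => Finset.coe_injective h)).mono ?_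
  intro B hB
  exact ⟨B.finite_toSet, fun x hx => hB x hx⟩

/-- Sealing: any `Ω`-indexed family of big sets has an infinite subfamily with big
intersection. -/
lemma sealing_main [WellFoundedLT Ω] (hc : ∀ a : Ω, (Iio a).Countable)
    (hu : ¬ (univ : Set Ω).Countable) (hg : ∀ α, Good S Y G α g (g α))
    (hG : ∀ C : Ω → ℕ → Set ℕ, ∀ E : Set Ω, IsClub E →
      ∃ δ ∈ E, δ ∉ S ∧ ∀ ξ < δ, G δ ξ = C ξ)
    (V : Ultrafilter (ℕ × ℕ)) (hV : ∀ E, E ∈ V ↔ ∃ γ, Big g γ E)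
    (C : Ω → Set (ℕ × ℕ)) (hC : ∀ ξ, C ξ ∈ V) :
    ∃ K : Set Ω, K.Infinite ∧ (⋂ ξ ∈ K, C ξ) ∈ V := by
  classical
  -- Step 1: closure points
  let cC : Ω → ℕ → Set ℕ := fun ξ j => {l | (j, l) ∈ C ξ}
  let cD : Ω → ℕ → Set ℕ := fun β => (g β).D
  let Q := Finset ℕ × Finset (ℕ × Ω) × Finset (ℕ × Ω) × ℕ × Finset (ℕ × ℕ) × Ω
  let T : Q → Ω → Prop := fun q ξ => q.2.2.2.2.2 < ξ ∧ Pat (cC ξ) q.2.2.2.1 q.2.2.2.2.1 ∧
    ∀ j ∈ q.1, (cell cD cC q.2.1 q.2.2.1 j ∩ cC ξ j).Infinite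
  let Gf : Q → Ω := fun q => if h : ∃ ξ, T q ξ then h.choose else q.2.2.2.2.2
  let rk : Q → Finset Ω := fun q =>
    (q.2.1.image Prod.snd ∪ q.2.2.1.image Prod.snd) ∪ {q.2.2.2.2.2}
  have hQ : ∀ a : Ω, {q : Q | ∀ η ∈ rk q, η < a}.Countable := by
    intro a
    have h1 := countable_finset_below a (hc a)
    have h2 : ((univ : Set (Finset ℕ)) ×ˢ ({B : Finset (ℕ × Ω) | ∀ x ∈ B, x.2 < a} ×ˢ
      ({B : Finset (ℕ × Ω) | ∀ x ∈ B, x.2 < a} ×ˢ ((univ : Set ℕ) ×ˢ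
        ((univ : Set (Finset (ℕ × ℕ))) ×ˢ Iio a))))).Countable :=
      countable_univ.prod (h1.prod (h1.prod (countable_univ.prod (countable_univ.prod (hc a)))))
    refine h2.mono ?_
    intro q hq
    have hq' : ∀ η ∈ rk q, η < a := hq
    refine ⟨mem_univ _, ?_, ?_, mem_univ _, mem_univ _, ?_⟩
    · intro x hx
      exact hq' _ (Finset.mem_union_left _ (Finset.mem_union_left _ (Finset.mem_image_of_mem _ hx)))
    · intro x hx
      exact hq' _ (Finset.mem_union_left _ (Finset.mem_union_right _ (Finset.mem_image_of_mem _ hx)))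
    · exact hq' _ (Finset.mem_union_right _ (Finset.mem_singleton_self _))
  have hclub := isClub_closure hc hu rk Gf hQ
  obtain ⟨δ, ⟨hlim, hcl⟩, hδS, hguess⟩ := hG cC _ hclub
  -- Step 3
  obtain ⟨γ0, hγ0⟩ := (hV _).1 (hC δ)
  obtain ⟨γ, hγ⟩ := exists_gt' hc hu (max γ0 δ)
  have hγδ : δ < γ := lt_of_le_of_lt (le_max_right _ _) hγ
  have hbig1 : Big g γ (C δ) := hγ0.up hg (le_trans (le_max_left _ _) hγ.le)
  obtain ⟨m0, hm0⟩ := eventually_atTop.1 (hbig1.and ((hg γ).below δ hγδ).2)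
  let us : Set ℕ := {j | j ∈ (g γ).u ∧ m0 ≤ j}
  have hus : ∀ j ∈ us, AS ((g γ).D j) (cC δ j) ∧ AS ((g γ).D j) ((g δ).D j) := by
    rintro j ⟨hj1, hj2⟩
    exact ⟨(hm0 j hj2).1 hj1, (hm0 j hj2).2.mono_right inter_subset_left⟩
  -- Step 4
  let Zk : ℕ → Finset (ℕ × ℕ) := fun k =>
    ((Finset.range k) ×ˢ (Finset.range k)).filter (fun p => p ∈ C δ)
  have hZk : ∀ k, Pat (cC δ) k (Zk k) := by
    intro k j hj l hl
    simp [Zk, cC, hj, hl]
  have step4 : ∀ (k : ℕ) (ζ : Ω), ζ < δ → ∃ ξ, ζ < ξ ∧ ξ < δ ∧ Pat (cC ξ) k (Zk k) ∧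
      ∀ j < k, j ∈ us → AS ((g δ).D j) (cC ξ j) := by
    intro k ζ hζ
    let a : Finset ℕ := (Finset.range k).filter (fun j => j ∈ us)
    have ha : ∀ j, j ∈ a ↔ j < k ∧ j ∈ us := by intro j; simp [a]
    rcases (hg δ).sealing hlim hδS a k (Zk k) ζ hζ with ⟨ξ, h1, h2, h3, h4⟩ | ⟨B, F, hB, hF, h3, h4⟩
    · rw [hguess ξ h2] at h3
      refine ⟨ξ, h1, h2, h3, fun j hj hju => ?_⟩
      have := h4 j ((ha j).2 ⟨hj, hju⟩)
      rwa [hguess ξ h2] at this
    · exfalso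
      have hcell : ∀ j, cell (fun β => (g β).D) (G δ) B F j = cell cD cC B F j := by
        intro j
        ext l
        constructor
        · rintro ⟨h5, h6⟩
          exact ⟨h5, fun x hx hxj => (hguess x.2 (hF x hx)) ▸ h6 x hx hxj⟩
        · rintro ⟨h5, h6⟩
          exact ⟨h5, fun x hx hxj => (hguess x.2 (hF x hx)).symm ▸ h6 x hx hxj⟩
      let q : Q := (a, B, F, k, Zk k, ζ)
      have hTδ : T q δ := by
        refine ⟨hζ, hZk k, fun j hj => ?_⟩
        have hju := ((ha j).1 hj).2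
        have h5 := (hus j hju).2.trans (h3 j hj)
        rw [hcell] at h5
        exact (h5.inter (hus j hju).1).infinite ((hg γ).Dinf j)
      have hex : ∃ ξ, T q ξ := ⟨δ, hTδ⟩
      have hGq : Gf q = hex.choose := dif_pos hex
      have hTG : T q (Gf q) := by rw [hGq]; exact hex.choose_spec
      have hlt : Gf q < δ := by
        apply hcl q
        intro η hη
        rcases Finset.mem_union.1 hη with hη | hη
        · rcases Finset.mem_union.1 hη with hη | hη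
          · obtain ⟨x, hx, rfl⟩ := Finset.mem_image.1 hη
            exact hB x hx
          · obtain ⟨x, hx, rfl⟩ := Finset.mem_image.1 hη
            exact hF x hx
        · rw [Finset.mem_singleton.1 hη]; exact hζ
      refine h4 (Gf q) hTG.1 hlt ?_ ?_
      · rw [hguess _ hlt]; exact hTG.2.1
      · intro j hj
        rw [hcell, hguess _ hlt]
        exact hTG.2.2 j hj
  -- Step 5
  obtain ⟨ζ0, hζ0⟩ := hlim.1
  have step4' : ∀ (k : ℕ) (ζ : Iio δ), ∃ ξ : Iio δ, ζ < ξ ∧ Pat (cC ξ) k (Zk k) ∧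
      ∀ j < k, j ∈ us → AS ((g δ).D j) (cC ξ j) := by
    intro k ζ
    obtain ⟨ξ, h1, h2, h3, h4⟩ := step4 k ζ ζ.2
    exact ⟨⟨ξ, h2⟩, h1, h3, h4⟩
  choose nx hnx1 hnx2 hnx3 using step4'
  obtain ⟨s', hs'0, hs's⟩ : ∃ s' : ℕ → Iio δ, s' 0 = nx 0 ⟨ζ0, hζ0⟩ ∧
      ∀ n, s' (n+1) = nx (n+1) (s' n) :=
    ⟨fun n => Nat.rec (nx 0 ⟨ζ0, hζ0⟩) (fun k x => nx (k+1) x) n, rfl, fun _ => rfl⟩
  obtain ⟨s, hs⟩ : ∃ s : ℕ → Ω, ∀ n, s n = (s' n : Ω) := ⟨fun n => (s' n : Ω), fun _ => rfl⟩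
  have hs1 : StrictMono s := strictMono_nat_of_lt_succ fun n => by
    rw [hs, hs, hs's]; exact hnx1 _ _
  have hs2 : ∀ k, Pat (cC (s k)) k (Zk k) := by
    intro k
    rw [hs]
    cases k with
    | zero => rw [hs'0]; exact hnx2 _ _
    | succ k => rw [hs's]; exact hnx2 _ _
  have hs3 : ∀ k, ∀ j < k, j ∈ us → AS ((g δ).D j) (cC (s k) j) := by
    intro k
    rw [hs]
    cases k with
    | zero => rw [hs'0]; exact hnx3 _ _
    | succ k => rw [hs's]; exact hnx3 _ _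
  -- Step 6
  have hgk : ∀ k, ∃ γk, Big g γk (C (s k)) := fun k => (hV _).1 (hC _)
  choose γk hγk using hgk
  obtain ⟨γ', hγ'⟩ := exists_gt_seq hc hu (fun n => Nat.rec γ (fun k _ => γk k) n)
  have hγγ' : γ < γ' := hγ' 0
  have hγkγ' : ∀ k, γk k < γ' := fun k => hγ' (k+1)
  have hbk : ∀ k, Big g γ' (C (s k)) := fun k => (hγk k).up hg (hγkγ' k).le
  have hmk : ∀ k, ∃ m, ∀ j ≥ m, j ∈ (g γ').u → AS ((g γ').D j) (cC (s k) j) := fun k =>
    eventually_atTop.1 (hbk k)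
  choose mk hmk using hmk
  have hM : ∃ M, ∀ j ≥ M, j ∈ (g γ').u → j ∈ us ∧ AS ((g γ').D j) ((g δ).D j) ∧
      AS ((g γ').D j) (cC δ j) := by
    have hb := (hg γ').below γ hγγ'
    have := (eventually_mem_of_AS hb.1).and (hb.2.and (eventually_ge_atTop m0))
    obtain ⟨M, hM⟩ := eventually_atTop.1 this
    refine ⟨M, fun j hj hju => ?_⟩
    obtain ⟨h1, h2, h3⟩ := hM j hj
    have hjus : j ∈ us := ⟨h1 hju, h3⟩
    have h4 := h2.mono_right inter_subset_left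
    exact ⟨hjus, h4.trans (hus j hjus).2, h4.trans (hus j hjus).1⟩
  obtain ⟨M, hM⟩ := hM
  have star : ∀ k, ∀ j ≥ M, j ∈ (g γ').u → (j < k ∨ mk k ≤ j) →
      AS ((g γ').D j) (cC (s k) j) := by
    intro k j hj hju h
    rcases h with h | h
    · exact (hM j hj hju).2.1.trans (hs3 k j h (hM j hj hju).1)
    · exact hmk k j h hju
  -- Step 7
  have step7 : ∀ k, ∃ k', k < k' ∧ mk k ≤ k' ∧ ∀ j, M ≤ j → j < k → j ∈ (g γ').u →
      ∀ l ∈ (g γ').D j, k' ≤ l → l ∈ cC (s k) j := by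
    intro k
    have hb : ∀ j, ∃ b, M ≤ j → j < k → j ∈ (g γ').u → ∀ l ∈ (g γ').D j, b ≤ l →
        l ∈ cC (s k) j := by
      intro j
      by_cases h : M ≤ j ∧ j < k ∧ j ∈ (g γ').u
      · obtain ⟨b, hb⟩ := eventually_atTop.1
          (eventually_mem_of_AS (star k j h.1 h.2.2 (Or.inl h.2.1)))
        exact ⟨b, fun _ _ _ l hl hbl => hb l hbl hl⟩
      · exact ⟨0, fun h1 h2 h3 => absurd ⟨h1, h2, h3⟩ h⟩
    choose b hb using hb
    refine ⟨max (max (k+1) (mk k)) ((Finset.range k).sup b), ?_, ?_, ?_⟩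
    · exact lt_of_lt_of_le (Nat.lt_succ_self k) (le_trans (le_max_left _ _) (le_max_left _ _))
    · exact le_trans (le_max_right _ _) (le_max_left _ _)
    · intro j h1 h2 h3 l hl hl'
      refine hb j h1 h2 h3 l hl (le_trans ?_ hl')
      exact le_trans (Finset.le_sup (f := b) (Finset.mem_range.2 h2)) (le_max_right _ _)
  choose nk hnk1 hnk2 hnk3 using step7
  obtain ⟨ks, hks0, hkss⟩ : ∃ ks : ℕ → ℕ, ks 0 = M ∧ ∀ n, ks (n+1) = nk (ks n) :=
    ⟨fun n => Nat.rec M (fun _ x => nk x) n, rfl, fun _ => rfl⟩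
  have hks : StrictMono ks := strictMono_nat_of_lt_succ fun n => by
    rw [hkss]; exact hnk1 _
  have hks2 : ∀ i, mk (ks i) ≤ ks (i+1) := fun i => by rw [hkss]; exact hnk2 _
  have hks3 : ∀ i, ∀ j, M ≤ j → j < ks i → j ∈ (g γ').u →
      ∀ l ∈ (g γ').D j, ks (i+1) ≤ l → l ∈ cC (s (ks i)) j := fun i => by
    rw [hkss]; exact hnk3 _
  -- Step 8
  let E0 : Set (ℕ × ℕ) := {p | p.1 ∈ (g γ').u ∧ M ≤ p.1 ∧ p.2 ∈ (g γ').D p.1 ∧ p ∈ C δ ∧
    ∀ i, ks (i+1) ≤ p.1 → p.2 ∈ cC (s (ks i)) p.1}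
  have hE0 : E0 ∈ V := by
    rw [hV]
    refine ⟨γ', ?_⟩
    filter_upwards [eventually_ge_atTop M] with j hj hju
    have h1 : AS ((g γ').D j) {l | ∀ i ∈ (Finset.range j).filter (fun i => ks (i+1) ≤ j),
        l ∈ cC (s (ks i)) j} := by
      refine AS.biInter _ fun i hi => ?_
      have hi' := (Finset.mem_filter.1 hi).2
      exact star (ks i) j hj hju (Or.inr (le_trans (hks2 i) hi'))
    have h2 := ((AS.refl ((g γ').D j)).inter (hM j hj hju).2.2).inter h1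
    refine h2.mono_right ?_
    rintro l ⟨⟨hl1, hl2⟩, hl3⟩
    refine ⟨hju, hj, hl1, hl2, fun i hi => hl3 i ?_⟩
    have hi1 : i + 1 ≤ ks (i+1) := hks.id_le (i+1)
    have hi2 : ks (i+1) ≤ j := hi
    exact Finset.mem_filter.2 ⟨Finset.mem_range.2 (by omega), hi2⟩
  -- Step 9
  obtain ⟨idx, hidx⟩ := exists_idx ks hks
  obtain ⟨K1, -, hK1, hK1V⟩ := exists_avoid V (fun p => idx p.1) univ infinite_univ
  obtain ⟨K2, hK2K1, hK2, hK2V⟩ := exists_avoid V (fun p => idx p.2) K1 hK1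
  refine ⟨(fun i => s (ks i)) '' K2, ?_, ?_⟩
  · refine hK2.image (fun i _ i' _ h => ?_)
    exact hks.injective (hs1.injective h)
  · refine mem_of_superset (inter_mem hE0 (inter_mem hK1V hK2V)) ?_
    rintro ⟨j, l⟩ ⟨⟨h1, h2, h3, h4, h5⟩, h6, h7⟩
    simp only [mem_iInter]
    rintro _ ⟨i, hi, rfl⟩
    have h6' : ¬ (ks i ≤ j ∧ j < ks (i+1)) := fun h => by
      apply h6
      have := hidx i j h.1 h.2
      simp only [this]
      exact hK2K1 hi
    have h7' : ¬ (ks i ≤ l ∧ l < ks (i+1)) := fun h => by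
      apply h7
      have := hidx i l h.1 h.2
      simp only [this]
      exact hi
    by_cases hj : ks (i+1) ≤ j
    · exact h5 i hj
    · have hj' : j < ks i := by
        by_contra h
        exact h6' ⟨not_lt.1 h, not_le.1 hj⟩
      by_cases hl : l < ks i
      · have := (hs2 (ks i) j hj' l hl).2 (by
          simp only [Zk, Finset.mem_filter, Finset.mem_product, Finset.mem_range]
          exact ⟨⟨hj', hl⟩, h4⟩)
        exact this
      · have hl' : ks (i+1) ≤ l := by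
          by_contra h
          exact h7' ⟨not_lt.1 hl, not_le.1 h⟩
        exact hks3 i j h2 hj' h1 l h3 hl'

/-- **Main construction.** -/
theorem main_construction [WellFoundedLT Ω] (hc : ∀ a : Ω, (Iio a).Countable)
    (hu : ¬ (univ : Set Ω).Countable) (S : Set Ω)
    (Y : Ω → ℕ → Set ℕ) (hY : ∀ Z : ℕ → Set ℕ, ∃ α, Y α = Z)
    (G : Ω → Ω → ℕ → Set ℕ)
    (hG : ∀ C : Ω → ℕ → Set ℕ, ∀ E : Set Ω, IsClub E →
      ∃ δ ∈ E, δ ∉ S ∧ ∀ ξ < δ, G δ ξ = C ξ) :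
    ∃ (V : Ultrafilter (ℕ × ℕ)) (A : Ω → Set (ℕ × ℕ)),
      (∀ x, {x}ᶜ ∈ V) ∧ (∀ α, A α ∈ V) ∧
      (∀ δ, IsLim δ → δ ∈ S → ∀ J : Set Ω, (∀ β ∈ J, β < δ) → (∀ α < δ, ∃ β ∈ J, α < β) →
        (⋂ β ∈ J, A β) ∉ V) ∧
      (∀ C : Ω → Set (ℕ × ℕ), (∀ ξ, C ξ ∈ V) → ∃ K : Set Ω, K.Infinite ∧ (⋂ ξ ∈ K, C ξ) ∈ V) := by
  classical
  -- the recursion
  let dflt : St := ⟨∅, fun _ => ∅, fun _ => ∅⟩
  let ext : (α : Ω) → (Iio α → St) → Ω → St := fun α f β =>
    if h : β < α then f ⟨β, h⟩ else dflt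
  obtain ⟨g, hg0⟩ := exists_transfinite (Ω := Ω)
    (fun α (f : Iio α → St) x => Good S Y G α (ext α f) x) (by
      intro α f hf
      refine exists_stage hc fun β hβ => ?_
      have h1 := hf ⟨β, hβ⟩
      have h2 : ext α f β = f ⟨β, hβ⟩ := dif_pos hβ
      rw [h2]
      refine h1.congr fun γ hγ => ?_
      have h3 : ext α f γ = f ⟨γ, lt_trans hγ hβ⟩ := dif_pos _
      rw [h3]
      exact dif_pos hγ)
  have hg : ∀ α, Good S Y G α g (g α) := fun α =>
    (hg0 α).congr fun β hβ => dif_pos hβ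
  have hne : Nonempty Ω := by
    by_contra h
    rw [not_nonempty_iff] at h
    exact hu (by rw [Set.univ_eq_empty_iff.2 h]; exact countable_empty)
  -- the filter
  let F : Filter (ℕ × ℕ) :=
    { sets := {E | ∃ γ, Big g γ E}
      univ_sets := ⟨Classical.arbitrary Ω, Eventually.of_forall fun j _ => by
        simpa using AS.of_subset (subset_univ _)⟩
      sets_of_superset := by
        rintro E E' ⟨γ, hγ⟩ h
        exact ⟨γ, hγ.mono h⟩
      inter_sets := by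
        rintro E E' ⟨γ, hγ⟩ ⟨γ', hγ'⟩
        exact ⟨max γ γ', (hγ.up hg (le_max_left _ _)).inter (hγ'.up hg (le_max_right _ _))⟩ }
  have hF : ∀ E, E ∈ F ↔ ∃ γ, Big g γ E := fun E => Iff.rfl
  have hcompl : ∀ s, sᶜ ∉ F ↔ s ∈ F := by
    intro s
    constructor
    · intro hs
      obtain ⟨α, hα⟩ := hY (fun j => {l | (j, l) ∈ s})
      rcases (hg α).dec with h | h
      · refine ⟨α, Eventually.of_forall fun j hj => ?_⟩
        have := h j hj
        rwa [hα] at this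
      · exfalso
        apply hs
        refine ⟨α, Eventually.of_forall fun j hj => ?_⟩
        have := h j hj
        rw [hα] at this
        refine Set.Finite.subset this ?_
        rintro l ⟨hl1, hl2⟩
        refine ⟨hl1, ?_⟩
        by_contra hl3
        exact hl2 hl3
    · rintro hs hs'
      have := F.inter_sets hs hs'
      rw [inter_compl_self] at this
      obtain ⟨γ, hγ⟩ := this
      exact not_big_empty hg γ hγ
  let V : Ultrafilter (ℕ × ℕ) := Ultrafilter.ofComplNotMemIff F hcompl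
  have hV : ∀ E, E ∈ V ↔ ∃ γ, Big g γ E := fun E => Iff.rfl
  refine ⟨V, fun α => {p | p.2 ∈ (g α).A p.1}, ?_, ?_, ?_, ?_⟩
  · rintro ⟨j0, l0⟩
    rw [hV]
    refine ⟨Classical.arbitrary Ω, ?_⟩
    filter_upwards [eventually_gt_atTop j0] with j hj _
    refine AS.of_subset fun l _ => ?_
    intro h
    have := congrArg Prod.fst h
    simp only at this
    omega
  · intro α
    rw [hV]
    obtain ⟨γ, hγ⟩ := exists_gt' hc hu α
    refine ⟨γ, ?_⟩
    filter_upwards [((hg γ).below α hγ).2] with j hj _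
    exact hj.mono_right (fun l hl => hl.2)
  · intro δ hlim hδS J hJ hJc hmem
    obtain ⟨γ, hγ⟩ := (hV _).1 hmem
    obtain ⟨γ', hγ'⟩ := exists_gt' hc hu (max γ δ)
    have h1 : Big g γ' (⋂ β ∈ J, {p : ℕ × ℕ | p.2 ∈ (g β).A p.1}) :=
      hγ.up hg (le_trans (le_max_left _ _) hγ'.le)
    have h2 : δ < γ' := lt_of_le_of_lt (le_max_right _ _) hγ'
    obtain ⟨b, hb⟩ := eventually_atTop.1 (h1.and ((hg γ').below δ h2).2)
    obtain ⟨j, hj, hbj⟩ := (hg γ').uinf.exists_gt b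
    obtain ⟨h3, h4⟩ := hb j hbj.le
    have h5 := h3 hj
    obtain ⟨η, hη, h6⟩ := (hg δ).kill hlim hδS j
    obtain ⟨β, hβ, hηβ⟩ := hJc η hη
    have h7 := h6 β (hJ β hβ) hηβ.le
    have h8 : AS ((g γ').D j) ((g δ).D j ∩ (g β).A j) := by
      refine (h4.mono_right inter_subset_left).inter (h5.mono_right ?_)
      intro l hl
      have hl' : ((j, l) : ℕ × ℕ) ∈ ⋂ β ∈ J, {p : ℕ × ℕ | p.2 ∈ (g β).A p.1} := hl
      simp only [mem_iInter] at hl'
      exact hl' β hβ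
    exact h8.infinite ((hg γ').Dinf j) h7
  · intro C hC
    exact sealing_main hc hu hg hG V hV C hC

end

end TT
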