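import Mathlib
import Pool.Agent.Helper65.TT_Main

/-!
# From Jensen's diamond to the guessing sequences used in the construction
-/

open Set Filter Cardinal Ordinal

namespace TT

/-- The well-ordered set `ω₁` of countable ordinals. -/
abbrev Omega1 : Type 1 := Set.Iio (ω₁ : Ordinal.{0})

/-- Jensen's principle `◇` (on `ω₁`): there are sets `a δ` (`δ < ω₁`) such that for every
`A ⊆ ω₁` the set of `δ` with `A ∩ δ = a δ` is stationary. -/
def Diamond : Prop :=
  ∃ a : Omega1 → Set Omega1, ∀ A : Set Omega1, IsStationary {δ | A ∩ Set.Iio δ = a δ}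

lemma omega1_countable_Iio (a : Omega1) : (Iio a).Countable := by
  have h1 : (Iio (a : Ordinal.{0})).Countable := by
    rw [← Cardinal.le_aleph0_iff_set_countable, Cardinal.mk_Iio_ordinal]
    have h : (a : Ordinal.{0}).card < ℵ_ 1 := Cardinal.lt_omega_iff_card_lt.1 a.2
    have h' : (a : Ordinal.{0}).card ≤ ℵ₀ := by
      rw [← Cardinal.succ_aleph0] at h
      exact Order.lt_succ_iff.1 h
    rw [Cardinal.lift_le_aleph0]
    exact h'
  refine (h1.preimage Subtype.val_injective).mono ?_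
  intro x hx
  exact hx

lemma omega1_not_countable : ¬ (univ : Set Omega1).Countable := by
  intro h
  have h1 : Countable Omega1 := countable_univ_iff.1 h
  have h2 : (Iio (ω₁ : Ordinal.{0})).Countable := countable_coe_iff.1 h1
  rw [← Cardinal.le_aleph0_iff_set_countable, Cardinal.mk_Iio_ordinal, Ordinal.card_omega] at h2
  simp at h2

/-- From `◇`: guessing of `ω₁`-sequences of subsets of `ℕ` on every club. -/
lemma diamond_guess (h : Diamond) :
    ∃ G : Omega1 → Omega1 → Set ℕ, ∀ f : Omega1 → Set ℕ, ∀ E : Set Omega1, IsClub E →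
      ∃ δ ∈ E, IsLim δ ∧ ∀ ξ < δ, G δ ξ = f ξ := by
  classical
  obtain ⟨a, ha⟩ := h
  have hinj : Nonempty (Omega1 × ℕ ↪ Omega1) := by
    rw [← Cardinal.lift_mk_le']
    have h1 : ℵ₀ ≤ #Omega1 := by
      rw [Cardinal.aleph0_le_mk_iff]
      by_contra hcon
      rw [not_infinite_iff_finite] at hcon
      exact omega1_not_countable (Set.toFinite _).countable
    simp only [Cardinal.mk_prod, Cardinal.mk_denumerable, Cardinal.lift_aleph0, Cardinal.lift_mul]
    have h2 : Cardinal.lift.{1} #Omega1 = #Omega1 := by simp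
    simp only [Cardinal.lift_id, Cardinal.lift_uzero] at *
    rw [Cardinal.mul_aleph0_eq h1]
  obtain ⟨e⟩ := hinj
  refine ⟨fun δ ξ => {n | e (ξ, n) ∈ a δ}, fun f E hE => ?_⟩
  choose nE hnE1 hnE2 using hE.isCofinal
  -- closure points
  let r : (Omega1 × ℕ) ⊕ Omega1 → Finset Omega1 := fun q =>
    match q with
    | Sum.inl p => {p.1}
    | Sum.inr b => {b}
  let Gf : (Omega1 × ℕ) ⊕ Omega1 → Omega1 := fun q =>
    match q with
    | Sum.inl p => e p
    | Sum.inr b => nE b
  have hQ : ∀ b : Omega1, {q | ∀ η ∈ r q, η < b}.Countable := by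
    intro b
    have h1 : (Sum.inl '' (Iio b ×ˢ (univ : Set ℕ)) ∪ Sum.inr '' Iio b :
        Set ((Omega1 × ℕ) ⊕ Omega1)).Countable :=
      (((omega1_countable_Iio b).prod countable_univ).image _).union
        ((omega1_countable_Iio b).image _)
    refine h1.mono ?_
    rintro (p | c) hq
    · left
      refine ⟨p, ⟨?_, mem_univ _⟩, rfl⟩
      exact hq p.1 (by simp [r])
    · right
      exact ⟨c, hq c (by simp [r]), rfl⟩
  have hclub := isClub_closure omega1_countable_Iio omega1_not_countable r Gf hQ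
  let A : Set Omega1 := {x | ∃ ξ n, x = e (ξ, n) ∧ n ∈ f ξ}
  obtain ⟨δ, hδ1, hδ2, hδ3⟩ := ha A hclub
  refine ⟨δ, ?_, hδ2, fun ξ hξ => ?_⟩
  · obtain ⟨b0, hb0⟩ := hδ2.1
    refine hE.isLUB_mem (t := nE '' Iio δ) ?_ ⟨_, mem_image_of_mem _ hb0⟩ ⟨?_, ?_⟩
    · rintro _ ⟨b, _, rfl⟩
      exact hnE1 b
    · rintro _ ⟨b, hb, rfl⟩
      refine (hδ3 (Sum.inr b) ?_).le
      intro η hη
      simp only [r, Finset.mem_singleton] at hη
      rw [hη]; exact hb
    · intro c hc
      by_contra hcon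
      push Not at hcon
      obtain ⟨γ, hγ1, hγ2⟩ := hδ2.2 c hcon
      have := hc (mem_image_of_mem nE (show γ ∈ Iio δ from hγ2))
      exact absurd (lt_of_lt_of_le hγ1 (hnE2 γ)) (not_lt.2 this)
  · have hδ1' : A ∩ Iio δ = a δ := hδ1
    ext n
    have hlt : e (ξ, n) < δ := by
      refine hδ3 (Sum.inl (ξ, n)) ?_
      intro η hη
      simp only [r, Finset.mem_singleton] at hη
      rw [hη]; exact hξ
    constructor
    · intro hn
      have hn' : e (ξ, n) ∈ A ∩ Iio δ := by rw [hδ1']; exact hn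
      obtain ⟨ξ', n', h1, h2⟩ := hn'.1
      have h3 := e.injective h1
      simp only [Prod.mk.injEq] at h3
      rw [h3.1, h3.2]
      exact h2
    · intro hn
      have hn' : e (ξ, n) ∈ A ∩ Iio δ := ⟨⟨ξ, n, rfl, hn⟩, hlt⟩
      rw [hδ1'] at hn'
      exact hn'

end TT
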